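import Pool.Agent.V5helper99.OX.Low
import Pool.Agent.W424.OD.Cnt

/-!
# Accessible vertices and squares
-/

set_option autoImplicit false
set_option maxHeartbeats 4000000

namespace Pool.Agent.V5helper99.OX

open H974 H12S Finset H984P H984N H342P Pool.Agent.V5helper99.OB Pool.Agent.W424.OD

/-- path to a near vertex -/
theorem path_near (w : Vtx) : ∀ (k : ℕ) (u : Vtx), |u.1 - w.1| + |u.2 - w.2| = k → sd u w ≤ 2 →
    Relation.ReflTransGen (fun a b => Adj Set.univ a b ∧ sd a w ≤ 2) w u := by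
  intro k
  induction k with
  | zero =>
    intro u h _
    have h1 := abs_nonneg (u.1 - w.1)
    have h2 := abs_nonneg (u.2 - w.2)
    have h3 : |u.1 - w.1| = 0 := by push_cast at h; omega
    have h4 : |u.2 - w.2| = 0 := by push_cast at h; omega
    rw [abs_eq_zero, sub_eq_zero] at h3 h4
    rw [show u = w from Prod.ext h3 h4]
  | succ k ih =>
    intro u h hu
    obtain ⟨w1, w2⟩ := w
    obtain ⟨u1, u2⟩ := u
    rw [V5helper99.OB.sd_le_iff, abs_le, abs_le] at hu
    simp only at h hu ih ⊢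
    push_cast at h
    rcases lt_trichotomy u1 w1 with h1 | h1 | h1
    · refine (ih (u1 + 1, u2) ?_ ?_).tail ⟨⟨(u1, u2, true), trivial, Or.inr ⟨?_, ?_⟩⟩, ?_⟩
      · simp only
        rw [abs_of_nonpos (by omega)] at h ⊢
        omega
      · rw [V5helper99.OB.sd_le_iff, abs_le, abs_le]; simp only; omega
      · rw [src_mk]
      · rw [tgt_true]
      · rw [V5helper99.OB.sd_le_iff, abs_le, abs_le]; simp only; omega
    · subst h1
      rcases lt_trichotomy u2 w2 with h2 | h2 | h2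
      · refine (ih (u1, u2 + 1) ?_ ?_).tail ⟨⟨(u1, u2, false), trivial, Or.inr ⟨?_, ?_⟩⟩, ?_⟩
        · simp only
          rw [abs_of_nonpos (show u2 - w2 ≤ 0 by omega)] at h
          rw [abs_of_nonpos (show u2 + 1 - w2 ≤ 0 by omega)]
          omega
        · rw [V5helper99.OB.sd_le_iff, abs_le, abs_le]; simp only; omega
        · rw [src_mk]
        · rw [tgt_false]
        · rw [V5helper99.OB.sd_le_iff, abs_le, abs_le]; simp only; omega
      · subst h2
        simp at h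
        omega
      · refine (ih (u1, u2 - 1) ?_ ?_).tail ⟨⟨(u1, u2 - 1, false), trivial, Or.inl ⟨?_, ?_⟩⟩, ?_⟩
        · simp only
          rw [abs_of_nonneg (show 0 ≤ u2 - w2 by omega)] at h
          rw [abs_of_nonneg (show 0 ≤ u2 - 1 - w2 by omega)]
          omega
        · rw [V5helper99.OB.sd_le_iff, abs_le, abs_le]; simp only; omega
        · rw [src_mk]
        · rw [tgt_false, sub_add_cancel]
        · rw [V5helper99.OB.sd_le_iff, abs_le, abs_le]; simp only; omega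
    · refine (ih (u1 - 1, u2) ?_ ?_).tail ⟨⟨(u1 - 1, u2, true), trivial, Or.inl ⟨?_, ?_⟩⟩, ?_⟩
      · simp only
        rw [abs_of_nonneg (show 0 ≤ u1 - w1 by omega)] at h
        rw [abs_of_nonneg (show 0 ≤ u1 - 1 - w1 by omega)]
        omega
      · rw [V5helper99.OB.sd_le_iff, abs_le, abs_le]; simp only; omega
      · rw [src_mk]
      · rw [tgt_true, sub_add_cancel]
      · rw [V5helper99.OB.sd_le_iff, abs_le, abs_le]; simp only; omega

/-- last exit of `D` -/
theorem last_exit {D : Set Vtx} {w x : Vtx}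
    (h : Relation.ReflTransGen (fun a b => Adj Set.univ a b ∧ sd a w ≤ 2) w x) (hw : w ∈ D)
    (hx : x ∉ D) : ∃ w' p, sd w' w ≤ 2 ∧ w' ∈ D ∧ p ∉ D ∧ Adj Set.univ w' p ∧
      Reach (Av D) p x := by
  have key : ∀ u, Relation.ReflTransGen (fun a b => Adj Set.univ a b ∧ sd a w ≤ 2) u x →
      (u ∉ D ∧ Reach (Av D) u x) ∨ ∃ w' p, sd w' w ≤ 2 ∧ w' ∈ D ∧ p ∉ D ∧ Adj Set.univ w' p ∧
      Reach (Av D) p x := by
    intro u hu
    induction hu using Relation.ReflTransGen.head_induction_on with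
    | refl => exact Or.inl ⟨hx, Reach.refl _ _⟩
    | @head a b hab _ ih =>
      rcases ih with ⟨h1, h2⟩ | h1
      · by_cases ha : a ∈ D
        · exact Or.inr ⟨a, b, hab.2, ha, h1, hab.1, h2⟩
        · left
          refine ⟨ha, Reach.trans (Adj.reach ?_) h2⟩
          obtain ⟨e, -, h3⟩ := hab.1
          refine ⟨e, ?_, h3⟩
          rcases h3 with ⟨h4, h5⟩ | ⟨h4, h5⟩
          · exact ⟨by rw [h4]; exact ha, by rw [h5]; exact h1⟩
          · exact ⟨by rw [h4]; exact h1, by rw [h5]; exact ha⟩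
      · exact Or.inr h1
  rcases key w h with ⟨h1, -⟩ | h1
  · exact absurd hw h1
  · exact h1

theorem reach_avoid {D : Set Vtx} {p q : Vtx} (h : Reach (Av D) p q) :
    (avoidGraph D).Reachable p q := by
  induction h with
  | refl => exact SimpleGraph.Reachable.refl _
  | @tail a b _ hs ih =>
    obtain ⟨e, ⟨h1, h2⟩, h3⟩ := hs
    refine ih.trans (SimpleGraph.Adj.reachable ?_)
    unfold avoidGraph
    rw [SimpleGraph.fromRel_adj]
    have hne : a ≠ b := by
      rintro rfl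
      apply Plain.fst_ne_snd e
      rw [Plain.fst_eq, Plain.snd_eq]
      rcases h3 with ⟨h4, h5⟩ | ⟨h4, h5⟩ <;> rw [h4, h5]
    refine ⟨hne, ?_⟩
    rcases h3 with ⟨h4, h5⟩ | ⟨h4, h5⟩
    · left
      rw [h4] at h1
      rw [h5] at h2
      exact ⟨⟨e, by rw [Plain.fst_eq]; exact h4, by rw [Plain.snd_eq]; exact h5⟩, h1, h2⟩
    · right
      rw [h4] at h1
      rw [h5] at h2
      exact ⟨⟨e, by rw [Plain.fst_eq]; exact h4, by rw [Plain.snd_eq]; exact h5⟩, h1, h2⟩

theorem mem_box {n : ℕ} {v : Vtx} : v ∈ Plain.box n ↔ inR 0 n 0 n v := by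
  unfold Plain.box
  rw [Finset.mem_product, Finset.mem_Icc, Finset.mem_Icc]
  unfold inR
  tauto

theorem acc_of {n : ℕ} {F : Finset Plain.Edge} {v w x y : Vtx} (hw : w ∈ Plain.cluster F v)
    (hx : sd x w ≤ 2) (hxD : x ∉ Plain.cluster F v) (hy : ¬ inR 0 n 0 n y)
    (hr : Reach (Av (Plain.cluster F v)) x y) : ∃ w', sd w' w ≤ 2 ∧ Accessible n F v w' := by
  obtain ⟨k, hk⟩ : ∃ k : ℕ, |x.1 - w.1| + |x.2 - w.2| = k := by
    refine ⟨(|x.1 - w.1| + |x.2 - w.2|).toNat, ?_⟩
    have h1 := abs_nonneg (x.1 - w.1)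
    have h2 := abs_nonneg (x.2 - w.2)
    omega
  obtain ⟨w', p, h1, h2, h3, ⟨e, -, h4⟩, h5⟩ := last_exit (path_near w k x hk hx) hw hxD
  refine ⟨w', h1, h2, e, p, y, ?_, h3, ?_, reach_avoid (h5.trans hr)⟩
  · rw [Plain.fst_eq, Plain.snd_eq]
    exact h4
  · rw [mem_box]
    exact hy

/-! ### Squares -/

/-- The square of side `m` of a vertex. -/
def sqr (m : ℕ) (w : Vtx) : Vtx := (w.1 / (m : ℤ), w.2 / (m : ℤ))

theorem ediv_near {m : ℕ} (hm : 1 ≤ m) {a b : ℤ} (h1 : -2 ≤ a - b) (h2 : a - b ≤ 2) :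
    b / (m : ℤ) - 2 ≤ a / (m : ℤ) ∧ a / (m : ℤ) ≤ b / (m : ℤ) + 2 := by
  have hm0 : (0 : ℤ) < m := by exact_mod_cast hm
  have hm1 : (1 : ℤ) ≤ m := by exact_mod_cast hm
  constructor
  · rw [Int.le_ediv_iff_mul_le hm0]
    have := Int.ediv_mul_le b hm0.ne'
    nlinarith
  · rw [← Int.lt_add_one_iff, Int.ediv_lt_iff_lt_mul hm0]
    have := Int.lt_ediv_add_one_mul_self b hm0
    nlinarith

theorem same_sq {m : ℕ} (hm : 1 ≤ m) {a b : ℤ} (h : a / (m : ℤ) = b / (m : ℤ)) :
    |a - b| ≤ m := by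
  have hm0 : (0 : ℤ) < m := by exact_mod_cast hm
  have h1 := Int.ediv_mul_le a hm0.ne'
  have h2 := Int.lt_ediv_add_one_mul_self a hm0
  have h3 := Int.ediv_mul_le b hm0.ne'
  have h4 := Int.lt_ediv_add_one_mul_self b hm0
  rw [h] at h1 h2
  rw [abs_le]
  constructor <;> nlinarith

/-- The number of the squares. -/
theorem sq_count {m : ℕ} (hm : 1 ≤ m) (V : Finset Vtx) :
    V.card ^ 2 ≤ (V.image (sqr m)).card * PC m V := by
  classical
  have h1 : V.card = ∑ b ∈ V.image (sqr m), (V.filter (fun w => sqr m w = b)).card :=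
    Finset.card_eq_sum_card_image (sqr m) V
  have h2 : ∑ b ∈ V.image (sqr m), (V.filter (fun w => sqr m w = b)).card ^ 2 ≤ PC m V := by
    have h3 : ((V ×ˢ V).filter (fun q => sqr m q.1 = sqr m q.2)).card =
        ∑ b ∈ V.image (sqr m), (((V ×ˢ V).filter (fun q => sqr m q.1 = sqr m q.2)).filter
          (fun q => sqr m q.1 = b)).card := by
      apply Finset.card_eq_sum_card_fiberwise
      intro q hq
      rw [Finset.mem_coe, Finset.mem_filter, Finset.mem_product] at hq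
      exact Finset.mem_image_of_mem _ hq.1.1
    have h4 : ∀ b ∈ V.image (sqr m), (V.filter (fun w => sqr m w = b)).card ^ 2 =
        (((V ×ˢ V).filter (fun q => sqr m q.1 = sqr m q.2)).filter
          (fun q => sqr m q.1 = b)).card := by
      intro b _
      rw [sq, ← Finset.card_product]
      congr 1
      ext ⟨x, y⟩
      simp only [Finset.mem_product, Finset.mem_filter]
      constructor
      · rintro ⟨⟨a1, a2⟩, a3, a4⟩
        exact ⟨⟨⟨a1, a3⟩, a2.trans a4.symm⟩, a2⟩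
      · rintro ⟨⟨⟨a1, a3⟩, a4⟩, a2⟩
        exact ⟨⟨a1, a2⟩, a3, a4.symm.trans a2⟩
    rw [Finset.sum_congr rfl h4, ← h3]
    unfold PC
    apply Finset.card_le_card
    intro q hq
    rw [Finset.mem_filter] at hq ⊢
    refine ⟨hq.1, ?_⟩
    have h5 := hq.2
    unfold sqr at h5
    rw [Prod.mk.injEq] at h5
    rw [V5helper99.OB.sd_le_iff]
    exact ⟨same_sq hm h5.1, same_sq hm h5.2⟩
  have h3 : V.card ^ 2 ≤ (V.image (sqr m)).card *
      ∑ b ∈ V.image (sqr m), (V.filter (fun w => sqr m w = b)).card ^ 2 := by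
    conv_lhs => rw [h1]
    exact sq_sum_le_card_mul_sum_sq
  exact h3.trans (Nat.mul_le_mul_left _ h2)

theorem sq_near {m : ℕ} (hm : 1 ≤ m) {V A : Finset Vtx}
    (h : ∀ w ∈ V, ∃ w' ∈ A, sd w' w ≤ 2) :
    (V.image (sqr m)).card ≤ 25 * (A.image (sqr m)).card := by
  classical
  have hsub : V.image (sqr m) ⊆ (A.image (sqr m)).biUnion
      (fun b => Finset.Icc (b.1 - 2) (b.1 + 2) ×ˢ Finset.Icc (b.2 - 2) (b.2 + 2)) := by
    intro b hb
    obtain ⟨w, hw, rfl⟩ := Finset.mem_image.1 hb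
    obtain ⟨w', hw', h1⟩ := h w hw
    rw [V5helper99.OB.sd_le_iff, abs_le, abs_le] at h1
    rw [Finset.mem_biUnion]
    refine ⟨sqr m w', Finset.mem_image_of_mem _ hw', ?_⟩
    have h2 := ediv_near hm (a := w'.1) (b := w.1) (by omega) (by omega)
    have h3 := ediv_near hm (a := w'.2) (b := w.2) (by omega) (by omega)
    unfold sqr
    rw [Finset.mem_product, Finset.mem_Icc, Finset.mem_Icc]
    simp only
    omega
  refine (Finset.card_le_card hsub).trans ?_
  refine Finset.card_biUnion_le.trans ?_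
  have h4 : ∀ b : Vtx, (Finset.Icc (b.1 - 2) (b.1 + 2) ×ˢ Finset.Icc (b.2 - 2) (b.2 + 2)).card =
      25 := by
    intro b
    rw [Finset.card_product, Int.card_Icc, Int.card_Icc]
    have e1 : (b.1 + 2 + 1 - (b.1 - 2)).toNat = 5 := by omega
    have e2 : (b.2 + 2 + 1 - (b.2 - 2)).toNat = 5 := by omega
    rw [e1, e2]
  simp only [h4, Finset.sum_const, smul_eq_mul]
  rw [mul_comm]

/-- many squares with accessible vertices -/
theorem many_sq {n m : ℕ} (hm : 1 ≤ m) {c : ℝ} {F : Finset Plain.Edge} {v : Vtx}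
    (hF : F ⊆ Plain.edges n) (hv : v ∈ Plain.box n)
    (h : WpX n m c (Plain.cluster F v)) :
    c / 25 * ((n : ℝ) / m) ^ (4 / 3 : ℝ) ≤ (((accessible n F v).image (sqr m)).card : ℝ) := by
  classical
  obtain ⟨V, hne, hV, hE, hp⟩ := h
  have h1 : ((V.card : ℝ)) ^ 2 ≤ ((V.image (sqr m)).card : ℝ) * (PC m V : ℝ) := by
    exact_mod_cast sq_count hm V
  have hPC : 0 < (PC m V : ℝ) := by
    have h2 : 0 < (V.card : ℝ) := by exact_mod_cast hne.card_pos
    by_contra hcon
    have h3 : (PC m V : ℝ) = 0 := le_antisymm (not_lt.1 hcon) (Nat.cast_nonneg _)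
    rw [h3, mul_zero] at h1
    nlinarith [pow_pos h2 2]
  have h2 : c * ((n : ℝ) / m) ^ (4 / 3 : ℝ) ≤ ((V.image (sqr m)).card : ℝ) :=
    le_of_mul_le_mul_right (hE.trans h1) hPC
  have h3 : (V.image (sqr m)).card ≤ 25 * ((accessible n F v).image (sqr m)).card := by
    apply sq_near hm
    intro w hw
    obtain ⟨x, hx, hxD, y, hy, hr⟩ := hp w hw
    obtain ⟨w', h4, h5⟩ := acc_of (hV w hw) hx hxD hy hr
    refine ⟨w', ?_, h4⟩
    unfold accessible
    rw [Finset.mem_filter]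
    refine ⟨?_, h5⟩
    rw [mem_box]
    have h6 := (Plain.mem_cluster F v w').1 h5.1
    rw [Plain.edges_eq] at hF
    exact reach_RE (by exact_mod_cast hF) (mem_box.1 hv) h6
  have h4 : ((V.image (sqr m)).card : ℝ) ≤ 25 * (((accessible n F v).image (sqr m)).card : ℝ) := by
    exact_mod_cast h3
  have e : c / 25 * ((n : ℝ) / m) ^ (4 / 3 : ℝ) = c * ((n : ℝ) / m) ^ (4 / 3 : ℝ) / 25 := by ring
  rw [e, div_le_iff₀ (by norm_num)]
  linarith

end Pool.Agent.V5helper99.OX
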