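import Pool.Agent.V5helper99.OX.Gen1
import Pool.Agent.V5helper72.OB.BoxC

/-!
# The box event for the accessible vertices (adapted from the box event of helper72)
-/

set_option autoImplicit false
set_option maxHeartbeats 4000000

namespace Pool.Agent.V5helper99.OX

open H974 H973 H12S H934E Finset H984P H984N
open Pool.Agent.Y989.FR (AE Clu A3v Awy Acc TkA cl S_ACC S_THK S_U3)
open Pool.Agent.V5helper99.OB (TE TP rgn IsT tE Pat WS Esc)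
open Pool.Agent.V5helper72.OB

/-- Edges of the lattice whose ends are in the corridor and not in `C`. -/
def Kz (r a : ℕ) (Z : Finset (ℤ × ℤ)) (C : Finset Vtx) : Set Edg :=
  {e | ((sd (src e) (0, 0) ≤ (4 * r * a : ℕ) ∨ src e ∈ rgn Z a 1) ∧ src e ∉ C) ∧
    ((sd (tgt e) (0, 0) ≤ (4 * r * a : ℕ) ∨ tgt e ∈ rgn Z a 1) ∧ tgt e ∉ C)}

/-- A lattice path from a point near `w` to the mouth which avoids `C`. -/
def Pth (N r a : ℕ) (Z : Finset (ℤ × ℤ)) (yh : ℤ) (C : Finset Vtx) (w : Vtx) : Prop :=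
  ∃ x, sd x w ≤ 2 ∧ x ∉ C ∧ ∃ y ∈ rgn {(-(N : ℤ), yh)} a 1, Reach (Kz r a Z C) x y

/-- The number of the pairs of `V` at distance at most `m`. -/
noncomputable def PC (m : ℕ) (V : Finset Vtx) : ℕ :=
  ((V ×ˢ V).filter (fun q => sd q.1 q.2 ≤ m)).card

/-- The good clusters. -/
def GcX (N r : ℕ) (c0 E0 : ℝ) (m a : ℕ) (Z : Finset (ℤ × ℤ)) (yh : ℤ) (C : Finset Vtx) : Prop :=
  (∀ x ∈ C, x ∉ rgn Z a 16) ∧ ∃ V ⊆ C, V.Nonempty ∧ c0 * (a : ℝ) ^ (4 / 3 : ℝ) ≤ (V.card : ℝ) ∧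
    (PC m V : ℝ) ≤ E0 * (a : ℝ) ^ (4 / 3 : ℝ) * (m : ℝ) ^ (4 / 3 : ℝ) ∧
    ∀ w ∈ V, sd w (0, 0) ≤ (r * a : ℕ) ∧ Pth N r a Z yh C w

/-- a thick path gives a path -/
theorem pth {M B N r a : ℕ} (h : Num M B N r a) {w : Vtx} {F : Set Edg} {Z : Finset (ℤ × ℤ)}
    {yh : ℤ} {C : Finset Vtx} (hw : sd w (0, 0) ≤ (r * a : ℕ)) (hP : PatOf M B N r a Z yh w F)
    (hC : ∀ c ∈ C, c ∈ KC w (512 * (N * a)) w F) : Pth N r a Z yh C w := by
  obtain ⟨hZ, x, hx, y, hy, hy1, hy2, hr⟩ := hP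
  have ha := h.ha
  have hraN : 64 * (r * a) ≤ N * a := by
    rw [← mul_assoc]
    exact Nat.mul_le_mul_right _ h.hN
  have hra : 8 ≤ r * a := by
    have := Nat.mul_le_mul h.hr ha
    omega
  generalize hR : r * a = R at hraN hra hw
  -- vertices of the thick path
  have hthick : ∀ p, sd p (0, 0) ≤ (N * a : ℕ) →
      (∀ c ∈ KC w (512 * (N * a)) w F, Awy M B (8 * (N * a)) w c p) →
      (sd p (0, 0) ≤ (4 * r * a : ℕ) ∨ p ∈ rgn Z a 1) ∧ p ∉ C := by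
    intro p hp0 hA
    constructor
    · by_cases h1 : ((r * a : ℕ) : ℤ) ≤ 2 * sd p w
      · right
        rw [hZ]
        exact rgn1_of ha hp0 h1 hA
      · left
        have h2 := sd_tri p w (0, 0)
        rw [hR] at h1
        rw [mul_assoc, hR]
        omega
    · intro hpC
      have h9 := hA p (hC p hpC)
      unfold Awy at h9
      rw [sd_self, mul_zero] at h9
      exact absurd h9 (not_lt.2 (pow_nonneg (sd_nonneg _ _) _))
  obtain ⟨Pp, hPp⟩ : ∃ Pp : Vtx → Prop, Pp = (fun p : Vtx => sd p (0, 0) ≤ (N * a : ℕ) ∧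
        ∀ c ∈ KC w (512 * (N * a)) w F, Awy M B (8 * (N * a)) w c p) := ⟨_, rfl⟩
  have hG : ∀ e ∈ TE' (512 * (N * a)) M B (8 * (N * a)) w F ∩ ↑(blk (0, 0) (N * a)),
      Pp (src e) ∧ Pp (tgt e) := by
    rintro e ⟨⟨h1, h2⟩, h3⟩
    have h4 := mem_blk.1 (Finset.mem_coe.1 h3)
    rw [hPp]
    exact ⟨⟨h4.1, h1⟩, h4.2, h2⟩
  have hsub : TE' (512 * (N * a)) M B (8 * (N * a)) w F ∩ ↑(blk (0, 0) (N * a)) ⊆ Kz r a Z C := by
    intro e he
    have h1 := hG e he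
    rw [hPp] at h1
    exact ⟨hthick _ h1.1.1 h1.1.2, hthick _ h1.2.1 h1.2.2⟩
  have hyc := cell ha y.2
  rw [hy2] at hyc
  have hxC : x ∉ C := by
    rcases Relation.ReflTransGen.cases_head hr with h1 | ⟨b, hs, -⟩
    · exfalso
      rw [← h1] at hy
      have h2 := sd_tri x w (0, 0)
      omega
    · have h1 := (adj_edge hs hG).1
      rw [hPp] at h1
      exact (hthick x h1.1 h1.2).2
  have hyb : sd y (0, 0) ≤ (N * a : ℕ) := hy.le
  refine ⟨x, hx.le, hxC, y, ⟨_, Finset.mem_singleton_self _, ?_⟩, hr.mono hsub⟩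
  rw [abs_le, abs_le, hy1]
  push_cast
  constructor <;> constructor <;> linarith

/-- **The deterministic part.** -/
theorem detX {M B N r a : ℕ} (h : Num M B N r a) {F : Finset Edg} {Z : Finset (ℤ × ℤ)} {yh : ℤ}
    {V : Finset Vtx} (hne : V.Nonempty) {c0 E0 : ℝ} {m : ℕ}
    (hV : ∀ w ∈ V, w ∈ core (r * a) ∧ Ev (512 * (N * a)) M B (8 * (N * a)) (N * a) (r * a)
      (Lft (N * a)) w ↑F ∧ PatOf M B N r a Z yh w ↑F)
    (hcard : c0 * (a : ℝ) ^ (4 / 3 : ℝ) ≤ (V.card : ℝ))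
    (hen : (PC m V : ℝ) ≤ E0 * (a : ℝ) ^ (4 / 3 : ℝ) * (m : ℝ) ^ (4 / 3 : ℝ)) :
    BevG (GcX N r c0 E0 m a Z yh) N r a Z yh F := by
  classical
  have ha := h.ha
  have hraN : 64 * (r * a) ≤ N * a := by
    rw [← mul_assoc]
    exact Nat.mul_le_mul_right _ h.hN
  have hra : 8 ≤ r * a := by
    have := Nat.mul_le_mul h.hr ha
    omega
  obtain ⟨w0, hw0⟩ := id hne
  obtain ⟨hc0, hE0, hP0⟩ := hV w0 hw0
  have hw00 := mem_core.1 hc0
  -- the cluster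
  set C : Finset Vtx := (insert w0 (F.image src ∪ F.image tgt)).filter
    (fun x => Reach ((↑F : Set Edg) ∩ ↑(TE N a)) w0 x) with hCdef
  have hC : ∀ x, x ∈ C ↔ Reach ((↑F : Set Edg) ∩ ↑(TE N a)) w0 x := by
    intro x
    rw [hCdef, Finset.mem_filter]
    exact ⟨fun h => h.2, fun h => ⟨reach_mem Set.inter_subset_left h, h⟩⟩
  clear_value C
  -- linear forms
  obtain ⟨n, hn⟩ : ∃ n : ℕ, n = N * a := ⟨_, rfl⟩
  obtain ⟨R, hR⟩ : ∃ R : ℕ, R = r * a := ⟨_, rfl⟩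
  obtain ⟨P, hP⟩ : ∃ P : ℕ, P = (N + 10) * a := ⟨_, rfl⟩
  obtain ⟨Q, hQ⟩ : ∃ Q : ℕ, Q = (2 * N + 10) * a := ⟨_, rfl⟩
  have hTE : TE N a = RE (-(n : ℤ)) n (-((2 * n : ℕ) : ℤ)) (2 * n : ℕ) := by
    unfold TE
    rw [mul_assoc 2 N a, ← hn]
  have hTP : V5helper99.OB.TP N a = RE (-(P : ℤ)) P (-(Q : ℤ)) Q := by
    rw [hP, hQ]; rfl
  have e1 : P = n + 10 * a := by rw [hP, hn]; ring
  have e2 : Q = 2 * n + 10 * a := by rw [hQ, hn]; ring
  have e3 : 512 * a ≤ n := by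
    rw [hn]
    exact Nat.mul_le_mul_right _ (by have := h.hN; have := h.hr; omega)
  have e4 : 8 * r * a = 8 * R := by rw [hR]; ring
  rw [← hn, ← hR] at hraN
  rw [← hR] at hra hw00 hc0
  rw [← hn, ← hR] at hE0
  -- inclusions
  have hQT : blk (0, 0) n ⊆ TE N a := by
    intro e he
    rw [hTE, mem_re]
    have h1 := mem_blk.1 he
    rw [sd_le_iff, sd_le_iff] at h1
    simp only [sub_zero] at h1
    simp only [abs_le]
    push_cast at h1 ⊢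
    omega
  have hTm : ∀ w, sd w (0, 0) ≤ R → TE N a ⊆ blk w (512 * n) := by
    intro w hw e he
    rw [hTE, mem_re] at he
    simp only [abs_le] at he
    have h1 := sd_le_iff.1 hw
    simp only [sub_zero] at h1
    rw [mem_blk, sd_le_iff, sd_le_iff]
    push_cast at he h1 ⊢
    omega
  have hKC : ∀ x, x ∈ KC (0, 0) n w0 (↑F : Set Edg) → x ∈ C := fun x hx =>
    (hC x).2 (Reach.mono (Set.inter_subset_inter_right _ (Finset.coe_subset.2 hQT)) hx)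
  have hVC : ∀ w ∈ V, w ∈ C := by
    intro w hw
    obtain ⟨h1, h2, -⟩ := hV w hw
    have h1' := mem_core.1 h1
    rw [← hR] at h1'
    rw [← hn, ← hR] at h2
    apply hKC
    obtain ⟨y, hy, hyK⟩ := h2.1
    have h3 := sd_tri y (0, 0) w
    rw [sd_comm (0, 0) w] at h3
    obtain ⟨y', hy', hr'⟩ := firstX' (k := n) (c := (0, 0)) (by omega) (by push_cast at hy; omega) hyK
    refine hE0.2.2 w (by push_cast; omega) y' hy' (Reach.mono ?_ hr')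
    rintro e ⟨⟨h4, -⟩, h5⟩
    exact ⟨h4, h5⟩
  have hCK : ∀ w ∈ V, ∀ c ∈ C, c ∈ KC w (512 * (N * a)) w (↑F : Set Edg) := by
    intro w hw c hc
    have h1 := mem_core.1 (hV w hw).1
    rw [← hR] at h1
    rw [← hn]
    have h2 := (((hC w).1 (hVC w hw)).symm).trans ((hC c).1 hc)
    exact Reach.mono (Set.inter_subset_inter_right _ (Finset.coe_subset.2 (hTm w h1))) h2
  have hch : ∀ w ∈ V, Pool.Agent.V5helper99.OB.Chn (M1 M B N) B N r a Z yh C w ∧ (-(N : ℤ), yh) ∈ Z ∧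
      -(N : ℤ) ≤ yh ∧ yh ≤ N := fun w hw =>
    chain h (mem_core.1 (hV w hw).1) (hV w hw).2.2 (hCK w hw)
  have hmth : (-(N : ℤ), yh) ∈ Z := (hch w0 hw0).2.1
  have hZ0 : Z = Zc M B N r a w0 ↑F := hP0.1
  have hav : ∀ x, x ∈ KC w0 (512 * n) w0 (↑F : Set Edg) → x ∉ rgn Z a 16 := by
    intro x hx
    rw [hn] at hx
    rw [hZ0]
    exact avoid h hx
  refine ⟨C, ⟨w0, hVC w0 hw0, hC⟩, ⟨?_, V, hVC, hne, hcard, hen, ?_⟩, ?_⟩
  · intro x hx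
    apply hav
    have := hCK w0 hw0 x hx
    rwa [← hn] at this
  · intro w hw
    exact ⟨mem_core.1 (hV w hw).1, pth h (mem_core.1 (hV w hw).1) (hV w hw).2.2 (hCK w hw)⟩
  -- the escape
  obtain ⟨y, hy, hyK⟩ := hE0.1
  set D : Set Vtx := KC w0 (512 * n) w0 (↑F : Set Edg) with hD
  have hyD : (n : ℤ) ≤ sd y (0, 0) ∧ (Q : ℤ) < sd y (0, 0) := by
    have h3 := sd_tri y (0, 0) w0
    rw [sd_comm (0, 0) w0] at h3
    push_cast at hy
    omega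
  have hfar : ∀ x, x ∈ D → x ∉ C → (8 * R : ℤ) < sd x (0, 0) := by
    intro x hx hxC
    by_contra hcon
    push Not at hcon
    apply hxC
    apply hKC
    have h1 : Reach ((↑F : Set Edg) ∩ ↑(blk w0 (512 * n))) x y :=
      (Reach.symm hx).trans hyK
    obtain ⟨y', hy', hr'⟩ := firstX' (k := n) (c := (0, 0)) (by omega) hyD.1 h1
    refine hE0.2.2 x (by push_cast; omega) y' hy' (Reach.mono ?_ hr')
    rintro e ⟨⟨h4, -⟩, h5⟩
    exact ⟨h4, h5⟩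
  -- the path to the boundary of `T⁺`
  have hw0' := sd_le_iff.1 hw00
  simp only [sub_zero] at hw0'
  rcases firstR (P := P) (Q := Q) (by simp only [abs_le]; omega) hyK with h1 | ⟨y', hy', hr'⟩
  · exfalso
    obtain ⟨⟨h2, h3⟩, -⟩ := h1
    rw [abs_le] at h2 h3
    have h4 : sd y (0, 0) ≤ Q := by
      rw [sd_le_iff]
      simp only [sub_zero]
      omega
    omega
  have hcl1 : ∀ e ∈ ((↑F : Set Edg) ∩ ↑(blk w0 (512 * n))) ∩ ↑(RE (-(P : ℤ)) P (-(Q : ℤ)) Q),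
      (src e ∈ D ↔ tgt e ∈ D) := by
    rintro e ⟨he, -⟩
    have h1 : Adj ((↑F : Set Edg) ∩ ↑(blk w0 (512 * n))) (src e) (tgt e) :=
      ⟨e, he, Or.inl ⟨rfl, rfl⟩⟩
    exact ⟨fun h => Reach.trans (F := (↑F : Set Edg) ∩ ↑(blk w0 (512 * n))) h h1.reach,
      fun h => Reach.trans (F := (↑F : Set Edg) ∩ ↑(blk w0 (512 * n))) h h1.symm.reach⟩
  have hD0 : w0 ∈ D := Reach.refl _ _
  have h2 := (inD hD0 hcl1 hr').1
  obtain ⟨c, hc, hcr⟩ := lastC (T := (↑(TE N a) : Set Edg)) (C := (↑C : Set Vtx)) (by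
    rintro e ⟨⟨⟨he, -⟩, -⟩, -⟩ heT
    have h1 : Adj ((↑F : Set Edg) ∩ ↑(TE N a)) (src e) (tgt e) :=
      ⟨e, ⟨he, heT⟩, Or.inl ⟨rfl, rfl⟩⟩
    rw [Finset.mem_coe, Finset.mem_coe, hC, hC]
    exact ⟨fun h => h.trans h1.reach, fun h => h.trans h1.symm.reach⟩)
    (Finset.mem_coe.2 (hVC w0 hw0)) h2
  refine ⟨c, Finset.mem_coe.1 hc, y', ?_, hcr.mono ?_⟩
  · rw [← hP, ← hQ]
    exact hy'
  rintro e ⟨⟨⟨⟨heF, -⟩, heP⟩, heD1, heD2⟩, heT⟩
  have key : ∀ x, x ∈ D → (x ∉ C ∨ (8 * R : ℤ) < sd x (0, 0)) → x ∉ WS N r a Z yh := by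
    intro x hx hx2 hW
    rcases hW with hW | hW | hW
    · apply hav x hx
      obtain ⟨z, hz, h3, h4⟩ := hW
      refine ⟨z, hz, h3.trans ?_, h4.trans ?_⟩ <;> push_cast <;> omega
    · apply hav x hx
      refine ⟨_, hmth, ?_, hW.2⟩
      have h3 := hW.1
      rw [← hn] at h3
      have h4 : x.1 - -(N : ℤ) * a = x.1 + (n : ℤ) := by
        rw [hn]; push_cast; ring
      rw [h4]
      exact h3
    · rw [e4] at hW
      push_cast at hW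
      rcases hx2 with h3 | h3
      · have := hfar x hx h3
        omega
      · omega
  have hTend : e ∉ TE N a → (8 * R : ℤ) < sd (src e) (0, 0) ∧ (8 * R : ℤ) < sd (tgt e) (0, 0) := by
    intro heN
    have h3 : sd (src e) (tgt e) ≤ 1 :=
      adj_sd (G := Set.univ) ⟨e, trivial, Or.inl ⟨rfl, rfl⟩⟩
    have h4 := sd_tri (src e) (tgt e) (0, 0)
    have h5 := sd_tri (tgt e) (src e) (0, 0)
    rw [sd_comm (tgt e) (src e)] at h5
    have h6 : ¬ (sd (src e) (0, 0) ≤ n ∧ sd (tgt e) (0, 0) ≤ n) := by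
      rintro ⟨h7, h8⟩
      exact heN (hQT (mem_blk.2 ⟨h7, h8⟩))
    omega
  refine ⟨heF, ?_, ?_, ?_, ?_⟩
  · rw [hTP]
    exact Finset.mem_coe.1 heP
  · intro h3
    unfold tE at h3
    rw [Finset.mem_filter] at h3
    rcases heT with h4 | h4
    · exact h4 (Finset.mem_coe.2 h3.1)
    · rcases h3.2 with h5 | h5
      · exact h4.1 (Finset.mem_coe.2 h5)
      · exact h4.2 (Finset.mem_coe.2 h5)
  · apply key _ heD1
    rcases heT with h4 | h4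
    · exact Or.inr (hTend fun h => h4 (Finset.mem_coe.2 h)).1
    · exact Or.inl fun h => h4.1 (Finset.mem_coe.2 h)
  · apply key _ heD2
    rcases heT with h4 | h4
    · exact Or.inr (hTend fun h => h4 (Finset.mem_coe.2 h)).2
    · exact Or.inl fun h => h4.2 (Finset.mem_coe.2 h)


/-! ### Pairs at distance at most `m` -/

theorem PC_mono {m : ℕ} {V W : Finset Vtx} (h : V ⊆ W) : PC m V ≤ PC m W := by
  unfold PC
  exact Finset.card_le_card (Finset.filter_subset_filter _ (Finset.product_subset_product h h))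

theorem ball_sum (m : ℕ) (hm : 1 ≤ m) (v : Vtx) (J : Finset Vtx) :
    ∑ w ∈ J.filter (fun w => sd v w ≤ m), ((max (sd v w) 1 : ℤ) : ℝ) ^ (-(2 / 3) : ℝ) ≤
      49 * (m : ℝ) ^ (4 / 3 : ℝ) := by
  have hh0 : (0:ℝ) < m := by exact_mod_cast hm
  have s1 := t5_one (b := 1 / 3) (by norm_num) (by norm_num) (m : ℤ) (by omega) v.1
    (Finset.Icc (v.1 - m) (v.1 + m)) (by
    intro l hl
    rw [Finset.mem_Icc] at hl
    rw [abs_le]
    omega)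
  have s2 := t5_one (b := 1 / 3) (by norm_num) (by norm_num) (m : ℤ) (by omega) v.2
    (Finset.Icc (v.2 - m) (v.2 + m)) (by
    intro l hl
    rw [Finset.mem_Icc] at hl
    rw [abs_le]
    omega)
  rw [Int.cast_natCast] at s1 s2
  have key : ∀ w : Vtx, ((max (sd v w) 1 : ℤ) : ℝ) ^ (-(2 / 3) : ℝ) ≤
      ((max |v.1 - w.1| 1 : ℤ) : ℝ) ^ (-(1 / 3) : ℝ) *
        ((max |v.2 - w.2| 1 : ℤ) : ℝ) ^ (-(1 / 3) : ℝ) := by
    intro w
    have m1 : ((max |v.1 - w.1| 1 : ℤ) : ℝ) ≤ ((max (sd v w) 1 : ℤ) : ℝ) := by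
      have : max |v.1 - w.1| 1 ≤ max (sd v w) 1 := max_le_max (le_max_left _ _) le_rfl
      exact_mod_cast this
    have m2 : ((max |v.2 - w.2| 1 : ℤ) : ℝ) ≤ ((max (sd v w) 1 : ℤ) : ℝ) := by
      have : max |v.2 - w.2| 1 ≤ max (sd v w) 1 := max_le_max (le_max_right _ _) le_rfl
      exact_mod_cast this
    have e : ((max (sd v w) 1 : ℤ) : ℝ) ^ (-(2 / 3) : ℝ) =
        ((max (sd v w) 1 : ℤ) : ℝ) ^ (-(1 / 3) : ℝ) *
          ((max (sd v w) 1 : ℤ) : ℝ) ^ (-(1 / 3) : ℝ) := by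
      rw [← Real.rpow_add (t5_max_pos _)]
      congr 1
      norm_num
    rw [e]
    exact mul_le_mul
      (Real.rpow_le_rpow_of_nonpos (t5_max_pos _) m1 (by norm_num))
      (Real.rpow_le_rpow_of_nonpos (t5_max_pos _) m2 (by norm_num))
      (Real.rpow_nonneg (t5_max_nonneg _) _) (Real.rpow_nonneg (t5_max_nonneg _) _)
  have h0 : 0 ≤ ∑ l ∈ Finset.Icc (v.2 - m) (v.2 + m),
      ((max |v.2 - l| 1 : ℤ) : ℝ) ^ (-(1 / 3) : ℝ) :=
    Finset.sum_nonneg (fun _ _ => Real.rpow_nonneg (t5_max_nonneg _) _)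
  have hsub : J.filter (fun w => sd v w ≤ m) ⊆
      Finset.Icc (v.1 - m) (v.1 + m) ×ˢ Finset.Icc (v.2 - m) (v.2 + m) := by
    intro w hw
    rw [Finset.mem_filter] at hw
    have h1 := sd_le_iff.1 hw.2
    rw [Finset.mem_product, Finset.mem_Icc, Finset.mem_Icc]
    omega
  have c1 : (1 + 4 / (1 - 1 / 3 : ℝ)) = 7 := by norm_num
  rw [c1] at s1 s2
  calc ∑ w ∈ J.filter (fun w => sd v w ≤ m), ((max (sd v w) 1 : ℤ) : ℝ) ^ (-(2 / 3) : ℝ)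
      ≤ ∑ w ∈ Finset.Icc (v.1 - m) (v.1 + m) ×ˢ Finset.Icc (v.2 - m) (v.2 + m),
          ((max (sd v w) 1 : ℤ) : ℝ) ^ (-(2 / 3) : ℝ) :=
        Finset.sum_le_sum_of_subset_of_nonneg hsub
          (fun _ _ _ => Real.rpow_nonneg (t5_max_nonneg _) _)
    _ ≤ ∑ w ∈ Finset.Icc (v.1 - m) (v.1 + m) ×ˢ Finset.Icc (v.2 - m) (v.2 + m),
        ((max |v.1 - w.1| 1 : ℤ) : ℝ) ^ (-(1 / 3) : ℝ) *
          ((max |v.2 - w.2| 1 : ℤ) : ℝ) ^ (-(1 / 3) : ℝ) :=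
        Finset.sum_le_sum (fun w _ => key w)
    _ = (∑ l ∈ Finset.Icc (v.1 - m) (v.1 + m), ((max |v.1 - l| 1 : ℤ) : ℝ) ^ (-(1 / 3) : ℝ)) *
        ∑ l ∈ Finset.Icc (v.2 - m) (v.2 + m), ((max |v.2 - l| 1 : ℤ) : ℝ) ^ (-(1 / 3) : ℝ) := by
        rw [Finset.sum_product, Finset.sum_mul_sum]
    _ ≤ (7 * (m : ℝ) ^ (1 - 1 / 3 : ℝ)) * (7 * (m : ℝ) ^ (1 - 1 / 3 : ℝ)) :=
        mul_le_mul s1 s2 h0 (h0.trans s2)
    _ = 49 * ((m : ℝ) ^ (1 - 1 / 3 : ℝ) * (m : ℝ) ^ (1 - 1 / 3 : ℝ)) := by ring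
    _ = _ := by
        rw [← Real.rpow_add hh0]
        norm_num

section
variable (E : Vtx → Finset Edg → Prop)

theorem PC_VF (m R : ℕ) (F : Finset Edg) :
    (PC m (VF E R F) : ℝ) = ∑ v ∈ core R, ∑ w ∈ (core R).filter (fun w => sd v w ≤ m),
      ind (E v F ∧ E w F) := by
  classical
  unfold PC VF
  rw [Finset.card_filter]
  push_cast
  rw [Finset.sum_product, Finset.sum_filter]
  apply Finset.sum_congr rfl
  intro v _
  by_cases hv : E v F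
  · rw [if_pos hv, Finset.sum_filter, Finset.sum_filter]
    apply Finset.sum_congr rfl
    intro w _
    by_cases hw : E w F
    · rw [if_pos hw, ind_of ⟨hv, hw⟩]
    · rw [if_neg hw, ind_not_of (fun h => hw h.2)]
      simp
  · rw [if_neg hv]
    symm
    apply Finset.sum_eq_zero
    intro w _
    rw [ind_not_of (fun h => hv h.1)]

/-- expected number of pairs -/
theorem PC_EE {C : ℝ} (hC : 0 < C) {R m : ℕ} (hR : 1 ≤ R) (hm : 1 ≤ m)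
    {S : Finset Edg} (h2 : ∀ v ∈ core R, ∀ w ∈ core R, PQ (1 / 2) S (fun F => E v F ∧ E w F) ≤
      C * ((max (sd v w) 1 : ℤ) : ℝ) ^ (-(2 / 3) : ℝ) * (R : ℝ) ^ (-(2 / 3) : ℝ)) :
    EE S (fun F => (PC m (VF E R F) : ℝ)) ≤
      441 * C * ((R : ℝ) ^ (4 / 3 : ℝ) * (m : ℝ) ^ (4 / 3 : ℝ)) := by
  have ha0 : (0:ℝ) < R := by exact_mod_cast hR
  have ha1 : (1:ℝ) ≤ R := by exact_mod_cast hR
  have e1 : EE S (fun F => (PC m (VF E R F) : ℝ)) = ∑ v ∈ core R,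
      ∑ w ∈ (core R).filter (fun w => sd v w ≤ m), Q S (fun F => E v F ∧ E w F) := by
    have e0 : EE S (fun F => (PC m (VF E R F) : ℝ)) = EE S (fun F => ∑ v ∈ core R,
      ∑ w ∈ (core R).filter (fun w => sd v w ≤ m), ind (E v F ∧ E w F)) := by
      congr 1
      funext F
      exact PC_VF E m R F
    rw [e0]
    unfold EE
    rw [Ex_sum]
    apply Finset.sum_congr rfl
    intro v _
    rw [Ex_sum]
    rfl
  rw [e1]
  have h3 : ∀ v ∈ core R, ∑ w ∈ (core R).filter (fun w => sd v w ≤ m),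
      Q S (fun F => E v F ∧ E w F) ≤ C * (R : ℝ) ^ (-(2 / 3) : ℝ) * (49 * (m : ℝ) ^ (4 / 3 : ℝ)) := by
    intro v hv
    refine le_trans ?_ (mul_le_mul_of_nonneg_left (ball_sum m hm v (core R))
      (mul_nonneg hC.le (Real.rpow_nonneg ha0.le _)))
    rw [Finset.mul_sum]
    apply Finset.sum_le_sum
    intro w hw
    rw [Finset.mem_filter] at hw
    exact (h2 v hv w hw.1).trans (le_of_eq (by ring))
  refine (Finset.sum_le_sum h3).trans ?_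
  rw [Finset.sum_const, nsmul_eq_mul, card_core]
  have e3 : (R : ℝ) ^ 2 * (R : ℝ) ^ (-(2 / 3) : ℝ) = (R : ℝ) ^ (4 / 3 : ℝ) := by
    rw [← Real.rpow_natCast, ← Real.rpow_add ha0]
    congr 1
    norm_num
  have h4 : (2 * (R : ℝ) + 1) ^ 2 ≤ 9 * (R : ℝ) ^ 2 := by nlinarith
  have h5 : 0 ≤ C * (R : ℝ) ^ (-(2 / 3) : ℝ) * (49 * (m : ℝ) ^ (4 / 3 : ℝ)) := by positivity
  calc (2 * (R : ℝ) + 1) ^ 2 * (C * (R : ℝ) ^ (-(2 / 3) : ℝ) * (49 * (m : ℝ) ^ (4 / 3 : ℝ)))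
      ≤ (9 * (R : ℝ) ^ 2) * (C * (R : ℝ) ^ (-(2 / 3) : ℝ) * (49 * (m : ℝ) ^ (4 / 3 : ℝ))) :=
        mul_le_mul_of_nonneg_right h4 h5
    _ = 441 * C * (((R : ℝ) ^ 2 * (R : ℝ) ^ (-(2 / 3) : ℝ)) * (m : ℝ) ^ (4 / 3 : ℝ)) := by ring
    _ = _ := by rw [e3]

/-- second moment method -/
theorem sec_momX {A C0 C1 : ℝ} (hA0 : 0 < A) (hC0 : 0 < C0) (hC1 : 0 < C1) {R m : ℕ} (hR : 1 ≤ R)
    (hm : 1 ≤ m) {S : Finset Edg}
    (h1 : A * (R : ℝ) ^ (4 / 3 : ℝ) ≤ ∑ v ∈ core R, PQ (1 / 2) S (fun F => E v F))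
    (hE0 : EE S (fun F => En 0 (VF E R F)) ≤ C0 * (R : ℝ) ^ (8 / 3 - (0 : ℝ)))
    (hE1 : EE S (fun F => (PC m (VF E R F) : ℝ)) ≤
      C1 * ((R : ℝ) ^ (4 / 3 : ℝ) * (m : ℝ) ^ (4 / 3 : ℝ))) :
    A ^ 2 / (4 * C0) / 2 ≤ PQ (1 / 2) S (fun F => A / 2 * (R : ℝ) ^ (4 / 3 : ℝ) ≤
      ((VF E R F).card : ℝ) ∧
      (PC m (VF E R F) : ℝ) ≤ C1 / (A ^ 2 / (4 * C0) / 2) *
        ((R : ℝ) ^ (4 / 3 : ℝ) * (m : ℝ) ^ (4 / 3 : ℝ))) := by
  set p : ℝ := A ^ 2 / (4 * C0) / 2 with hp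
  have hp0 : 0 < p := by positivity
  have hm0 : (0:ℝ) < R := by exact_mod_cast hR
  have hmm : (0:ℝ) < m := by exact_mod_cast hm
  have hU : 0 < (R : ℝ) ^ (4 / 3 : ℝ) := Real.rpow_pos_of_pos hm0 _
  have hU2 : (R : ℝ) ^ (4 / 3 : ℝ) * (R : ℝ) ^ (4 / 3 : ℝ) = (R : ℝ) ^ (8 / 3 - (0:ℝ)) := by
    rw [← Real.rpow_add hm0]; norm_num
  set X : Finset Edg → ℝ := fun F => ((VF E R F).card : ℝ) with hX
  have hX0 : ∀ F, 0 ≤ X F := fun F => Nat.cast_nonneg _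
  have l1 : A * (R : ℝ) ^ (4 / 3 : ℝ) ≤ EE S X := by
    have e1 : EE S X = ∑ v ∈ core R, Q S (fun F => E v F) := by
      have e0 : EE S X = EE S (fun F => ∑ v ∈ core R, ind (E v F)) := by
        congr 1
        funext F
        exact t5_N E R F
      rw [e0]
      unfold EE
      rw [Ex_sum]
      rfl
    rw [e1]
    exact h1
  have l2 : EE S (fun F => X F * X F) ≤ C0 * (R : ℝ) ^ (8 / 3 - (0:ℝ)) := by
    refine le_trans (le_of_eq ?_) hE0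
    congr 1
    funext F
    exact t5_sq E R F
  have k := paley (S := S) (f := X) (fun F _ => hX0 F)
    (m := A * (R : ℝ) ^ (4 / 3 : ℝ)) (V := C0 * (R : ℝ) ^ (8 / 3 - (0:ℝ)))
    (by positivity) (by positivity) l1 l2
  have e3 : (A * (R : ℝ) ^ (4 / 3 : ℝ)) ^ 2 /
      (4 * (C0 * (R : ℝ) ^ (8 / 3 - (0:ℝ)))) = 2 * p := by
    rw [← hU2, hp]
    field_simp
  rw [e3] at k
  have hU3 : 0 < (R : ℝ) ^ (4 / 3 : ℝ) * (m : ℝ) ^ (4 / 3 : ℝ) := by positivity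
  have i2 := markov (S := S) (f := fun F => (PC m (VF E R F) : ℝ)) (fun F _ => Nat.cast_nonneg _)
    (t := C1 / p * ((R : ℝ) ^ (4 / 3 : ℝ) * (m : ℝ) ^ (4 / 3 : ℝ))) (by positivity)
  have i3 : EE S (fun F => (PC m (VF E R F) : ℝ)) /
      (C1 / p * ((R : ℝ) ^ (4 / 3 : ℝ) * (m : ℝ) ^ (4 / 3 : ℝ))) ≤ p := by
    rw [div_le_iff₀ (by positivity)]
    refine hE1.trans (le_of_eq ?_)
    field_simp
  have i4 : Q S (fun F => A * (R : ℝ) ^ (4 / 3 : ℝ) / 2 ≤ X F) ≤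
      Q S (fun F => A / 2 * (R : ℝ) ^ (4 / 3 : ℝ) ≤ ((VF E R F).card : ℝ) ∧
        (PC m (VF E R F) : ℝ) ≤ C1 / p * ((R : ℝ) ^ (4 / 3 : ℝ) * (m : ℝ) ^ (4 / 3 : ℝ))) +
      Q S (fun F => C1 / p * ((R : ℝ) ^ (4 / 3 : ℝ) * (m : ℝ) ^ (4 / 3 : ℝ)) ≤
        (PC m (VF E R F) : ℝ)) := by
    refine le_trans ?_ (Pr_or_le okhalf S _ _)
    apply Q_mono
    intro F _ hF
    by_cases h5 : (PC m (VF E R F) : ℝ) ≤ C1 / p * ((R : ℝ) ^ (4 / 3 : ℝ) * (m : ℝ) ^ (4 / 3 : ℝ))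
    · left
      refine ⟨?_, h5⟩
      refine le_trans (le_of_eq ?_) hF
      ring
    · exact Or.inr (le_of_not_ge h5)
  have i5 : p ≤ Q S (fun F => A / 2 * (R : ℝ) ^ (4 / 3 : ℝ) ≤ ((VF E R F).card : ℝ) ∧
        (PC m (VF E R F) : ℝ) ≤ C1 / p * ((R : ℝ) ^ (4 / 3 : ℝ) * (m : ℝ) ^ (4 / 3 : ℝ))) := by
    linarith
  exact i5

end

/-- **the good event** -/
theorem goodX (hA : S_ACC) (hT : S_THK) (hU : S_U3) : ∃ (M B Λ R0 : ℕ) (c0 E0 p : ℝ),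
    1 ≤ M ∧ 1 ≤ B ∧ 64 ≤ Λ ∧ 1 ≤ R0 ∧ 0 < c0 ∧ 0 < E0 ∧ 0 < p ∧
      ∀ R : ℕ, R0 ≤ R → ∀ m : ℕ, 1 ≤ m → p ≤ PQ (1 / 2) (blk (0, 0) (513 * (Λ * R))) (fun F =>
        c0 * (R : ℝ) ^ (4 / 3 : ℝ) ≤ ((VF (fun w F => Ev (512 * (Λ * R)) M B (8 * (Λ * R)) (Λ * R) R
          (Lft (Λ * R)) w ↑F) R F).card : ℝ) ∧
        (PC m (VF (fun w F => Ev (512 * (Λ * R)) M B (8 * (Λ * R)) (Λ * R) R
          (Lft (Λ * R)) w ↑F) R F) : ℝ) ≤ E0 * ((R : ℝ) ^ (4 / 3 : ℝ) * (m : ℝ) ^ (4 / 3 : ℝ))) := by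
  obtain ⟨M, B, Λ, R0, A, hM, hB, hΛ, hR0, hA0, hone⟩ := one_left hA hT hU
  obtain ⟨C, hC, htwo⟩ := two_pt hU
  set C0 : ℝ := 9 * C * (1 + 4 / (1 - ((0:ℝ) + 2 / 3) / 2)) ^ 2 with hC0
  have hC00 : 0 < C0 := by
    rw [hC0]
    positivity
  refine ⟨M, B, Λ, R0, A / 2, 441 * C / (A ^ 2 / (4 * C0) / 2), A ^ 2 / (4 * C0) / 2, hM, hB, hΛ,
    hR0, by positivity, by positivity, by positivity, ?_⟩
  intro R hR m hm
  have hR1 : 1 ≤ R := hR0.trans hR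
  have hR00 : (0 : ℝ) < R := by exact_mod_cast hR1
  have h1 := hone R hR
  have hnR : 64 * R ≤ Λ * R := Nat.mul_le_mul_right _ hΛ
  have h2 := fun v (hv : v ∈ core R) w (hw : w ∈ core R) =>
    htwo (512 * (Λ * R)) M B (8 * (Λ * R)) (Λ * R) R (Lft (Λ * R)) hR1 hnR (by omega) v hv w hw
      (blk (0, 0) (513 * (Λ * R))) (blk_mono (by omega))
  have h3 : ∀ v ∈ core R, ∀ w ∈ core R, PQ (1 / 2) (blk (0, 0) (513 * (Λ * R)))
      (fun F => Ev (512 * (Λ * R)) M B (8 * (Λ * R)) (Λ * R) R (Lft (Λ * R)) v ↑F ∧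
        Ev (512 * (Λ * R)) M B (8 * (Λ * R)) (Λ * R) R (Lft (Λ * R)) w ↑F) ≤
      C * ((max (sd v w) 1 : ℤ) : ℝ) ^ (-(2 / 3) : ℝ) * (R : ℝ) ^ (-(2 / 3) : ℝ) := by
    intro v hv w hw
    refine (h2 v hv w hw).trans ?_
    have h4 : ((Λ * R : ℕ) : ℝ) ^ (-(2 / 3) : ℝ) ≤ (R : ℝ) ^ (-(2 / 3) : ℝ) := by
      refine Real.rpow_le_rpow_of_nonpos hR00 ?_ (by norm_num)
      exact_mod_cast (by omega : R ≤ Λ * R)
    exact mul_le_mul_of_nonneg_left h4 (mul_nonneg hC.le (Real.rpow_nonneg (t5_max_nonneg _) _))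
  exact sec_momX _ hA0 hC00 (by positivity) hR1 hm h1
    (t5_EE (fun w F => Ev (512 * (Λ * R)) M B (8 * (Λ * R)) (Λ * R) R (Lft (Λ * R)) w ↑F) hC
      le_rfl (by norm_num) hR1 h3)
    (PC_EE (fun w F => Ev (512 * (Λ * R)) M B (8 * (Λ * R)) (Λ * R) R (Lft (Λ * R)) w ↑F) hC
      hR1 hm h3)

theorem BevG_local {N r a : ℕ} {Gc : Finset Vtx → Prop} {Z : Finset (ℤ × ℤ)} {yh : ℤ}
    (F : Finset Edg) : BevG Gc N r a Z yh F ↔
      BevG Gc N r a Z yh (F ∩ V5helper99.OB.TP N a) := by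
  have hsub : TE N a ⊆ V5helper99.OB.TP N a := by
    unfold TE V5helper99.OB.TP
    have e1 : (N + 10) * a = N * a + 10 * a := by ring
    have e2 : (2 * N + 10) * a = 2 * N * a + 10 * a := by ring
    apply RE_subset <;> simp only [neg_le_neg_iff, Nat.cast_le] <;> omega
  have h1 : (↑(F ∩ V5helper99.OB.TP N a) : Set Edg) ∩ ↑(TE N a) = (↑F : Set Edg) ∩ ↑(TE N a) := by
    rw [Finset.coe_inter, Set.inter_assoc, Set.inter_eq_right.2 (Finset.coe_subset.2 hsub)]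
  have h2 : ∀ C : Finset Vtx, (↑(F ∩ V5helper99.OB.TP N a) : Set Edg) ∩
      {e | e ∈ V5helper99.OB.TP N a ∧ e ∉ tE N a C ∧ src e ∉ WS N r a Z yh ∧
        tgt e ∉ WS N r a Z yh} =
      (↑F : Set Edg) ∩ {e | e ∈ V5helper99.OB.TP N a ∧ e ∉ tE N a C ∧ src e ∉ WS N r a Z yh ∧
        tgt e ∉ WS N r a Z yh} := by
    intro C
    ext e
    simp only [Finset.coe_inter, Set.mem_inter_iff, Finset.mem_coe, Set.mem_ofPred_eq]
    tauto
  unfold BevG IsT Esc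
  simp only [h1, h2]


/-- The box event has positive probability, for some pattern. -/
theorem boxX (hA : S_ACC) (hT : S_THK) (hU : S_U3) :
    ∃ (N r a0 : ℕ) (c0 E0 p : ℝ), 8 ≤ r ∧ 64 * r ≤ N ∧ 1 ≤ a0 ∧ 0 < c0 ∧ 0 < E0 ∧ 0 < p ∧
      ∀ a : ℕ, a0 ≤ a → ∀ m : ℕ, 1 ≤ m → ∃ (Z : Finset (ℤ × ℤ)) (yh : ℤ), Pat N Z yh ∧
        p ≤ PQ (1 / 2) (Pool.Agent.V5helper99.OB.TP N a)
          (BevG (GcX N r c0 E0 m a Z yh) N r a Z yh) := by
  classical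
  obtain ⟨M, B, Λ, R0, c0, E0, p, hM, hB, hΛ, hR0, hc0, hE0, hp, hgood⟩ := goodX hA hT hU
  obtain ⟨b, rfl⟩ : ∃ b, B = b + 1 := ⟨B - 1, by omega⟩
  -- the numbers
  obtain ⟨r, hr⟩ : ∃ r : ℕ, r = 20 * 2 ^ (b + 1) * M * (64 * Λ) ^ b := ⟨_, rfl⟩
  have hr8 : 8 ≤ r := by
    have h1 : 1 ≤ 2 ^ (b + 1) := Nat.one_le_pow _ _ (by norm_num)
    have h2 : 1 ≤ (64 * Λ) ^ b := Nat.one_le_pow _ _ (by omega)
    rw [hr]
    calc 8 ≤ 20 * 1 * 1 * 1 := by norm_num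
      _ ≤ _ := Nat.mul_le_mul (Nat.mul_le_mul (Nat.mul_le_mul_left _ h1) hM) h2
  obtain ⟨N, hN⟩ : ∃ N : ℕ, N = Λ * r := ⟨_, rfl⟩
  have hNr : 64 * r ≤ N := by rw [hN]; exact Nat.mul_le_mul_right _ hΛ
  have hnum : ∀ a, 1 ≤ a → Num M (b + 1) N r a := by
    intro a ha
    refine ⟨ha, hB, hr8, hNr, le_of_eq ?_⟩
    rw [Nat.add_sub_cancel, hN, show 64 * (Λ * r) = 64 * Λ * r by ring, mul_pow (64 * Λ) r b,
      ← mul_assoc, ← hr, pow_succ]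
    ring
  have hr0 : (0 : ℝ) < r := by exact_mod_cast (by omega : 0 < r)
  set κ : ℝ := ((PP N).card : ℝ) with hκ
  have hκ0 : 0 < κ := by
    rw [hκ]
    exact_mod_cast (PP_nonempty N).card_pos
  refine ⟨N, r, R0, c0 / κ, E0 * (r : ℝ) ^ (4 / 3 : ℝ), p / (2 * κ),
    hr8, hNr, hR0, by positivity, by positivity, by positivity, ?_⟩
  intro a ha m hm
  have ha1 : 1 ≤ a := hR0.trans ha
  have ha0 : (0 : ℝ) < a := by exact_mod_cast ha1
  have hRa : R0 ≤ r * a := by nlinarith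
  have hg := hgood (r * a) hRa m hm
  have hna : Λ * (r * a) = N * a := by rw [hN, mul_assoc]
  rw [hna] at hg
  set S := blk (0, 0) (513 * (N * a)) with hS
  -- contradiction
  by_contra hcon
  push Not at hcon
  have hsmall : ∀ q ∈ (PP N).filter (fun q => Pat N q.1 q.2),
      PQ (1 / 2) S (fun F => BevG (GcX N r (c0 / κ)
        (E0 * (r : ℝ) ^ (4 / 3 : ℝ)) m a q.1 q.2) N r a q.1 q.2 F) ≤ p / (2 * κ) := by
    intro q hq
    rw [Finset.mem_filter] at hq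
    have h1 := hcon q.1 q.2 hq.2
    refine le_trans (le_of_eq ?_) h1.le
    apply Pr_local
    · have e1 : (N + 10) * a ≤ 513 * (N * a) := by nlinarith
      have e2 : (2 * N + 10) * a ≤ 513 * (N * a) := by nlinarith
      rw [hS]
      unfold V5helper99.OB.TP H12S.blk
      apply RE_subset <;> simp only [zero_sub, zero_add, neg_le_neg_iff, Nat.cast_le] <;> omega
    · intro F _
      exact BevG_local F
  have hcov : PQ (1 / 2) S (fun F =>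
        c0 * ((r * a : ℕ) : ℝ) ^ (4 / 3 : ℝ) ≤ ((VF (fun w F => Ev (512 * (N * a)) M (b + 1)
          (8 * (N * a)) (N * a) (r * a) (Lft (N * a)) w ↑F) (r * a) F).card : ℝ) ∧
        (PC m (VF (fun w F => Ev (512 * (N * a)) M (b + 1) (8 * (N * a)) (N * a) (r * a)
          (Lft (N * a)) w ↑F) (r * a) F) : ℝ) ≤
          E0 * (((r * a : ℕ) : ℝ) ^ (4 / 3 : ℝ) * (m : ℝ) ^ (4 / 3 : ℝ))) ≤
      ∑ q ∈ (PP N).filter (fun q => Pat N q.1 q.2),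
        PQ (1 / 2) S (fun F => BevG (GcX N r (c0 / κ)
          (E0 * (r : ℝ) ^ (4 / 3 : ℝ)) m a q.1 q.2) N r a q.1 q.2 F) := by
    refine le_trans (Pr_mono okh ?_) (Pr_exists_le okh S
      ((PP N).filter (fun q => Pat N q.1 q.2)) (fun q F => BevG (GcX N r (c0 / κ)
          (E0 * (r : ℝ) ^ (4 / 3 : ℝ)) m a q.1 q.2) N r a q.1 q.2 F))
    rintro F _ ⟨h1, h2⟩
    set V := VF (fun w F => Ev (512 * (N * a)) M (b + 1) (8 * (N * a)) (N * a) (r * a)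
          (Lft (N * a)) w ↑F) (r * a) F with hV
    have hVm : ∀ w ∈ V, w ∈ core (r * a) ∧ Ev (512 * (N * a)) M (b + 1) (8 * (N * a)) (N * a)
        (r * a) (Lft (N * a)) w ↑F := by
      intro w hw
      rw [hV] at hw
      unfold VF at hw
      rwa [Finset.mem_filter] at hw
    -- the patterns
    have hex : ∀ w : Vtx, ∃ q : Finset (ℤ × ℤ) × ℤ, w ∈ V →
        (q ∈ PP N ∧ PatOf M (b + 1) N r a q.1 q.2 w ↑F) := by
      intro w
      by_cases hw : w ∈ V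
      · obtain ⟨q, hq⟩ := exists_pat ha1 (hVm w hw).2
        exact ⟨q, fun _ => hq⟩
      · exact ⟨(∅, 0), fun h => absurd h hw⟩
    choose f hf using hex
    obtain ⟨q, hq, hq2⟩ := Finset.exists_le_card_fiber_of_nsmul_le_card_of_maps_to
      (s := V) (t := PP N) (f := f) (b := (V.card : ℝ) / κ) (fun w hw => (hf w hw).1)
      (PP_nonempty N) (by
        rw [nsmul_eq_mul, ← hκ, mul_div_cancel₀ _ hκ0.ne'])
    set V' := V.filter (fun w => f w = q) with hV'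
    have hra1 : (a : ℝ) ^ (4 / 3 : ℝ) ≤ ((r * a : ℕ) : ℝ) ^ (4 / 3 : ℝ) := by
      refine Real.rpow_le_rpow ha0.le ?_ (by norm_num)
      exact_mod_cast Nat.le_mul_of_pos_left a (by omega)
    have hcard : c0 / κ * (a : ℝ) ^ (4 / 3 : ℝ) ≤ (V'.card : ℝ) := by
      refine le_trans ?_ hq2
      rw [div_mul_eq_mul_div]
      refine div_le_div_of_nonneg_right ?_ hκ0.le
      exact (mul_le_mul_of_nonneg_left hra1 hc0.le).trans h1
    have hpos : 0 < c0 / κ * (a : ℝ) ^ (4 / 3 : ℝ) := by positivity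
    have hne : V'.Nonempty := by
      rw [← Finset.card_pos]
      have : (0 : ℝ) < (V'.card : ℝ) := lt_of_lt_of_le hpos hcard
      exact_mod_cast this
    have hen : (PC m V' : ℝ) ≤ E0 * (r : ℝ) ^ (4 / 3 : ℝ) * (a : ℝ) ^ (4 / 3 : ℝ) *
        (m : ℝ) ^ (4 / 3 : ℝ) := by
      have h2' : (PC m V' : ℝ) ≤ (PC m V : ℝ) := by
        exact_mod_cast PC_mono (Finset.filter_subset _ _)
      refine h2'.trans (h2.trans (le_of_eq ?_))
      push_cast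
      rw [Real.mul_rpow hr0.le ha0.le]
      ring
    have hdet := detX (hnum a ha1) (Z := q.1) (yh := q.2) hne (F := F) (c0 := c0 / κ)
      (E0 := E0 * (r : ℝ) ^ (4 / 3 : ℝ)) (m := m) (by
        intro w hw
        rw [hV', Finset.mem_filter] at hw
        have h3 := hVm w hw.1
        have h4 := (hf w hw.1).2
        rw [hw.2] at h4
        exact ⟨h3.1, h3.2, h4⟩) hcard hen
    refine ⟨q, Finset.mem_filter.2 ⟨hq, ?_, ?_⟩, hdet⟩
    · intro z hz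
      unfold PP at hq
      rw [Finset.mem_product, Finset.mem_powerset] at hq
      have h3 := hq.1 hz
      rw [Finset.mem_product, Finset.mem_Icc, Finset.mem_Icc] at h3
      rw [abs_le, abs_le]
      exact h3
    · obtain ⟨w, hw⟩ := hne
      rw [hV', Finset.mem_filter] at hw
      have h3 := hVm w hw.1
      have h4 := (hf w hw.1).2
      rw [hw.2] at h4
      exact (chain (hnum a ha1) (C := ∅) (mem_core.1 h3.1) h4 (by simp)).2.1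
  have hsum : ∑ q ∈ (PP N).filter (fun q => Pat N q.1 q.2),
        PQ (1 / 2) S (fun F => BevG (GcX N r (c0 / κ)
          (E0 * (r : ℝ) ^ (4 / 3 : ℝ)) m a q.1 q.2) N r a q.1 q.2 F) ≤ p / 2 := by
    refine (Finset.sum_le_sum hsmall).trans ?_
    rw [Finset.sum_const, nsmul_eq_mul]
    have h1 : (((PP N).filter (fun q => Pat N q.1 q.2)).card : ℝ) ≤ κ := by
      rw [hκ]
      exact_mod_cast Finset.card_filter_le _ _
    calc (((PP N).filter (fun q => Pat N q.1 q.2)).card : ℝ) * (p / (2 * κ))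
        ≤ κ * (p / (2 * κ)) := mul_le_mul_of_nonneg_right h1 (by positivity)
      _ = p / 2 := by field_simp
  linarith


end Pool.Agent.V5helper99.OX
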