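import Pool.Agent.V5helper99.OX.Up

/-!
# The number of the squares with accessible vertices of the large clusters
-/

set_option autoImplicit false
set_option maxHeartbeats 4000000

namespace Pool.Agent.V5helper99.OX

open H974 H12S Finset H984P H984N H342P Pool.Agent.W424.OD Filter Topology

theorem okk : Ok (fun _ : Edg => (1/2:ℝ)) := fun _ => ⟨by norm_num, by norm_num⟩

theorem prob_mono {n : ℕ} {A B : Finset Plain.Edge → Prop} (h : ∀ F, F ⊆ Plain.edges n → A F → B F) :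
    Plain.prob n A ≤ Plain.prob n B := by
  rw [Plain.prob_eq n B]
  exact Plain.prob_le_of_pr h

theorem prob_or (n : ℕ) (A B : Finset Plain.Edge → Prop) :
    Plain.prob n (fun F => A F ∨ B F) ≤ Plain.prob n A + Plain.prob n B := by
  rw [Plain.prob_eq, Plain.prob_eq, Plain.prob_eq]
  exact Pr_or_le okk _ _ _

theorem prob_le_one (n : ℕ) (A : Finset Plain.Edge → Prop) : Plain.prob n A ≤ 1 := by
  rw [Plain.prob_eq]
  exact Pr_le_one okk _ _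

/-- The number of the squares of side `m` with accessible vertices. -/
noncomputable def sqs (n m : ℕ) (F : Finset Plain.Edge) (v : Vtx) : ℕ :=
  ((accessible n F v).image (sqr m)).card

/-- The diameter (maximum norm) of the cluster is at least `η n`. -/
def Lg (n : ℕ) (η : ℝ) (F : Finset Plain.Edge) (v : Vtx) : Prop :=
  v ∈ Plain.box n ∧ ∃ a ∈ Plain.cluster F v, ∃ b ∈ Plain.cluster F v, η * n ≤ ((sd a b : ℤ) : ℝ)

theorem bad_le (hA : Pool.Agent.Y989.FR.S_ACC) (hT : Pool.Agent.Y989.FR.S_THK)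
    (hU : Pool.Agent.Y989.FR.S_U3) {δ η : ℝ} (hδ : 0 < δ) (hη : 0 < η) :
    ∃ (c K : ℝ) (n0 : ℕ), 0 < c ∧ 0 < K ∧ ∀ n : ℕ, n0 ≤ n → ∀ m : ℕ, 1 ≤ m → m ≤ n →
      Plain.prob n (fun F => ∃ v, Lg n η F v ∧ ¬ (c * ((n : ℝ) / m) ^ (4 / 3 : ℝ) ≤ (sqs n m F v : ℝ) ∧
        (sqs n m F v : ℝ) ≤ K * ((n : ℝ) / m) ^ (4 / 3 : ℝ))) ≤ δ := by
  set ε : ℝ := min (δ / 2) η with hε
  have hε0 : 0 < ε := lt_min (by positivity) hη
  obtain ⟨c, n0, hc, hlow⟩ := lowX hε0 hA hT hU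
  obtain ⟨K, hK, hup⟩ := upX hU (show 0 < δ / 2 by positivity) hη
  refine ⟨c / 25, K, n0, by positivity, hK, fun n hn m hm hmn => ?_⟩
  have h1 := hlow n hn m hm
  have h2 := hup n m hm hmn
  refine le_trans (le_trans (prob_mono ?_) (prob_or n
    (fun F => ∃ v ∈ Plain.box n,
        (∃ a ∈ Plain.cluster F v, ∃ b ∈ Plain.cluster F v, ε * n ≤ ((sd a b : ℤ) : ℝ)) ∧
          ¬ WpX n m c (Plain.cluster F v))
    (fun F => ∃ v ∈ Plain.box n,
        (∃ a ∈ Plain.cluster F v, ∃ b ∈ Plain.cluster F v, η * n ≤ ((sd a b : ℤ) : ℝ)) ∧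
          ¬ (((accessible n F v).image (sqr m)).card : ℝ) ≤ K * ((n : ℝ) / m) ^ (4 / 3 : ℝ)))) ?_
  · rintro F hF ⟨v, ⟨hv, a, ha, b, hb, hab⟩, hcon⟩
    by_cases h3 : (sqs n m F v : ℝ) ≤ K * ((n : ℝ) / m) ^ (4 / 3 : ℝ)
    · left
      refine ⟨v, hv, ⟨a, ha, b, hb, ?_⟩, fun hW => hcon ⟨many_sq hm hF hv hW, h3⟩⟩
      refine le_trans ?_ hab
      exact mul_le_mul_of_nonneg_right (min_le_right _ _) (Nat.cast_nonneg _)
    · right
      exact ⟨v, hv, ⟨a, ha, b, hb, hab⟩, h3⟩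
  · have h3 : ε ≤ δ / 2 := min_le_left _ _
    linarith

/-- the largest cluster is large -/
theorem largest_lg {δ : ℝ} (hδ : 0 < δ) : ∃ (η : ℝ) (n0 : ℕ), 0 < η ∧ ∀ n : ℕ, n0 ≤ n →
    Plain.prob n (fun F => ∃ v, Plain.Largest n F v ∧ ¬ Lg n η F v) ≤ δ := by
  obtain ⟨K0, hK0⟩ := exists_pow_lt_of_lt_one hδ (show (1/2:ℝ) < 1 by norm_num)
  set K := K0 + 1 with hK
  have hKd : (1/2:ℝ) ^ K ≤ δ := by
    rw [hK, pow_succ]
    have : (0:ℝ) ≤ (1/2) ^ K0 := by positivity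
    linarith
  refine ⟨1 / (6 * K), 32 * K, by positivity, fun n hnN => ?_⟩
  set L : ℕ := n / (2 * K) with hL
  have hKpos : 0 < K := by omega
  have hLn : 2 * K * L ≤ n := Nat.mul_div_le n (2 * K)
  have hLn2 : n < 2 * K * (L + 1) := Nat.lt_mul_div_succ n (by omega)
  have hL8 : 16 ≤ L := by
    rw [hL, Nat.le_div_iff_mul_le (by omega)]
    omega
  obtain ⟨m, hm⟩ : ∃ m : ℕ, m = L / 3 := ⟨_, rfl⟩
  have hm1 : 3 * m ≤ L := by omega
  have hm2 : L + 1 ≤ 6 * m := by omega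
  have hKL : K * (L + 1) ≤ n + 1 := by nlinarith
  have hLnn : L ≤ n := by nlinarith
  have hnm : n ≤ 12 * K * m := by
    have : 2 * K * (L + 1) ≤ 2 * K * (6 * m) := by gcongr
    nlinarith
  have hNB := pr_not_big (n := n) (L := L) (K := K) (by omega) (m := (m:ℤ)) (by omega)
      (by exact_mod_cast hm1) hKL hLnn
  refine le_trans (le_trans (Plain.prob_le_of_pr (B := fun F => ¬ Big n (m:ℤ) (↑F : Set Edg)) ?_)
    hNB) hKd
  rintro F hF ⟨v, hv, hcon⟩ hb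
  apply hcon
  have hvb : v ∈ Plain.box n := hv.1
  obtain ⟨a, b, ha, hb', hmax⟩ := Plain.isMax_of_largest hv
  obtain ⟨c, d, hc, hd, hcd, h8⟩ := hb
  have h8' : 8 * (m:ℤ) ^ 2 ≤ dsq a b := h8.trans (hmax c d hc hd hcd)
  refine ⟨hvb, a, (Plain.mem_cluster _ _ _).2 ha, b, (Plain.mem_cluster _ _ _).2 hb', ?_⟩
  have h1 : 2 * (m:ℤ) ≤ sd a b := by
    by_contra hcon2
    push Not at hcon2
    have h2 : sd a b ≤ 2 * (m:ℤ) - 1 := by omega
    rw [V5helper99.OB.sd_le_iff] at h2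
    have h3 : (a.1 - b.1) ^ 2 ≤ (2 * (m:ℤ) - 1) ^ 2 := by
      rw [← sq_abs (a.1 - b.1)]
      exact pow_le_pow_left₀ (abs_nonneg _) h2.1 2
    have h4 : (a.2 - b.2) ^ 2 ≤ (2 * (m:ℤ) - 1) ^ 2 := by
      rw [← sq_abs (a.2 - b.2)]
      exact pow_le_pow_left₀ (abs_nonneg _) h2.2 2
    have hm0 : (1:ℤ) ≤ m := by
      have : 1 ≤ m := by omega
      exact_mod_cast this
    unfold dsq at h8'
    nlinarith
  have h2 : (2 * (m:ℝ)) ≤ ((sd a b : ℤ) : ℝ) := by exact_mod_cast h1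
  refine le_trans ?_ h2
  have hKR : (0:ℝ) < K := by exact_mod_cast hKpos
  have h3 : (n:ℝ) ≤ 12 * K * m := by exact_mod_cast hnm
  rw [one_div, inv_mul_le_iff₀ (by positivity)]
  linarith

theorem largest_bad (hA : Pool.Agent.Y989.FR.S_ACC) (hT : Pool.Agent.Y989.FR.S_THK)
    (hU : Pool.Agent.Y989.FR.S_U3) {δ : ℝ} (hδ : 0 < δ) :
    ∃ (c K : ℝ) (n0 : ℕ), 0 < c ∧ 0 < K ∧ ∀ n : ℕ, n0 ≤ n → ∀ m : ℕ, 1 ≤ m → m ≤ n →
      1 - δ ≤ Plain.prob n (fun F => ∀ v, Plain.Largest n F v →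
        c * ((n : ℝ) / m) ^ (4 / 3 : ℝ) ≤ (sqs n m F v : ℝ) ∧
        (sqs n m F v : ℝ) ≤ K * ((n : ℝ) / m) ^ (4 / 3 : ℝ)) := by
  obtain ⟨η, n1, hη, h1⟩ := largest_lg (show 0 < δ / 2 by positivity)
  obtain ⟨c, K, n0, hc, hK, h2⟩ := bad_le hA hT hU (show 0 < δ / 2 by positivity) hη
  refine ⟨c, K, max n0 n1, hc, hK, fun n hn m hm hmn => ?_⟩
  rw [max_le_iff] at hn
  have h3 := h1 n hn.2
  have h4 := h2 n hn.1 m hm hmn
  have h5 := Plain.prob_not n (fun F => ∀ v, Plain.Largest n F v →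
        c * ((n : ℝ) / m) ^ (4 / 3 : ℝ) ≤ (sqs n m F v : ℝ) ∧
        (sqs n m F v : ℝ) ≤ K * ((n : ℝ) / m) ^ (4 / 3 : ℝ))
  have h6 : Plain.prob n (fun F => ¬ ∀ v, Plain.Largest n F v →
        c * ((n : ℝ) / m) ^ (4 / 3 : ℝ) ≤ (sqs n m F v : ℝ) ∧
        (sqs n m F v : ℝ) ≤ K * ((n : ℝ) / m) ^ (4 / 3 : ℝ)) ≤ δ := by
    refine le_trans (le_trans (prob_mono ?_) (prob_or n
      (fun F => ∃ v, Plain.Largest n F v ∧ ¬ Lg n η F v)
      (fun F => ∃ v, Lg n η F v ∧ ¬ (c * ((n : ℝ) / m) ^ (4 / 3 : ℝ) ≤ (sqs n m F v : ℝ) ∧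
        (sqs n m F v : ℝ) ≤ K * ((n : ℝ) / m) ^ (4 / 3 : ℝ))))) ?_
    · intro F _ hcon
      push Not at hcon
      obtain ⟨v, hv, hv2⟩ := hcon
      by_cases hl : Lg n η F v
      · right
        refine ⟨v, hl, fun h => ?_⟩
        exact absurd h.2 (not_le.2 (hv2 h.1))
      · exact Or.inl ⟨v, hv, hl⟩
    · linarith
  linarith

/-- all the vertices -/
theorem sqs_one (n : ℕ) (F : Finset Plain.Edge) (v : Vtx) :
    sqs n 1 F v = (accessible n F v).card := by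
  classical
  unfold sqs
  rw [Finset.card_image_of_injective]
  intro x y h
  unfold sqr at h
  simpa using h

/-- the exponent -/
theorem exponent (hA : Pool.Agent.Y989.FR.S_ACC) (hT : Pool.Agent.Y989.FR.S_THK)
    (hU : Pool.Agent.Y989.FR.S_U3) {ε : ℝ} (hε : 0 < ε) :
    Tendsto (fun n : ℕ => Plain.prob n (fun F => ∀ v, Plain.Largest n F v →
      (n : ℝ) ^ (4 / 3 - ε) < ((accessible n F v).card : ℝ) ∧
      ((accessible n F v).card : ℝ) < (n : ℝ) ^ (4 / 3 + ε))) atTop (𝓝 1) := by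
  rw [Metric.tendsto_atTop]
  intro δ hδ
  obtain ⟨c, K, n0, hc, hK, h⟩ := largest_bad hA hT hU (show 0 < δ / 2 by positivity)
  have h1 : Tendsto (fun n : ℕ => (n : ℝ) ^ ε) atTop atTop :=
    (tendsto_rpow_atTop hε).comp tendsto_natCast_atTop_atTop
  obtain ⟨n1, hn1⟩ := eventually_atTop.1 (h1.eventually_gt_atTop (max K (1 / c)))
  refine ⟨max (max n0 n1) 1, fun n hn => ?_⟩
  rw [ge_iff_le, max_le_iff, max_le_iff] at hn
  have h2 := hn1 n hn.1.2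
  rw [max_lt_iff] at h2
  have hn0 : (0:ℝ) < n := by exact_mod_cast hn.2
  have h3 := h n hn.1.1 1 le_rfl hn.2
  have h4 : Plain.prob n (fun F => ∀ v, Plain.Largest n F v →
        c * ((n : ℝ) / (1 : ℕ)) ^ (4 / 3 : ℝ) ≤ (sqs n 1 F v : ℝ) ∧
        (sqs n 1 F v : ℝ) ≤ K * ((n : ℝ) / (1 : ℕ)) ^ (4 / 3 : ℝ)) ≤
      Plain.prob n (fun F => ∀ v, Plain.Largest n F v →
      (n : ℝ) ^ (4 / 3 - ε) < ((accessible n F v).card : ℝ) ∧
      ((accessible n F v).card : ℝ) < (n : ℝ) ^ (4 / 3 + ε)) := by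
    apply prob_mono
    intro F _ hF v hv
    obtain ⟨h5, h6⟩ := hF v hv
    rw [sqs_one, Nat.cast_one, div_one] at h5 h6
    have h43 : 0 < (n : ℝ) ^ (4 / 3 : ℝ) := by positivity
    constructor
    · refine lt_of_lt_of_le ?_ h5
      rw [Real.rpow_sub hn0, div_lt_iff₀ (by positivity)]
      have h7 : 1 < c * (n : ℝ) ^ ε := by
        have := (div_lt_iff₀ hc).1 h2.2
        linarith
      calc (n : ℝ) ^ (4 / 3 : ℝ) = 1 * (n : ℝ) ^ (4 / 3 : ℝ) := (one_mul _).symm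
        _ < (c * (n : ℝ) ^ ε) * (n : ℝ) ^ (4 / 3 : ℝ) := by gcongr
        _ = c * (n : ℝ) ^ (4 / 3 : ℝ) * (n : ℝ) ^ ε := by ring
    · refine lt_of_le_of_lt h6 ?_
      rw [Real.rpow_add hn0, mul_comm]
      gcongr
      exact h2.1
  have h5 := prob_le_one n (fun F => ∀ v, Plain.Largest n F v →
      (n : ℝ) ^ (4 / 3 - ε) < ((accessible n F v).card : ℝ) ∧
      ((accessible n F v).card : ℝ) < (n : ℝ) ^ (4 / 3 + ε))
  rw [Real.dist_eq, abs_lt]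
  constructor <;> linarith

end Pool.Agent.V5helper99.OX
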