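import Pool.Agent.V5helper99.OB.Window2

/-!
# Windows for general good clusters, part 1

`Gc` is any set of good clusters of the box `T`.
-/

set_option autoImplicit false
set_option maxHeartbeats 4000000

namespace Pool.Agent.V5helper99.OX

open H974 H12S Finset H984P H984N Pool.Agent.V5helper99.OB

/-- The requirements on the good clusters. -/
def OKG (Gc : Finset Vtx → Prop) (r a : ℕ) (Z : Finset (ℤ × ℤ)) : Prop :=
  ∀ C, Gc C → (∀ x ∈ C, x ∉ rgn Z a 16) ∧ ∃ w ∈ C, sd w (0, 0) ≤ (r * a : ℕ)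

/-- The box event. -/
def BevG (Gc : Finset Vtx → Prop) (N r a : ℕ) (Z : Finset (ℤ × ℤ)) (yh : ℤ) (G : Finset Edg) :
    Prop :=
  ∃ C : Finset Vtx, IsT N a ↑G C ∧ Gc C ∧ Esc N r a Z yh C ↑G

/-- The good event of the window. -/
def GdG (Gc : Finset Vtx → Prop) (S k : Finset Edg) (P : Vtx → Prop) (W0 L : Set Vtx)
    (Hk : Finset Edg) (N r a Q : ℕ) (Z : Finset (ℤ × ℤ)) (yh : ℤ) (F : Finset Edg) : Prop :=
  ∃ C : Finset Vtx, Gc C ∧ IsT N a ↑F C ∧
    A2 S k P W0 L Hk N r a Z yh C F ∧ Trp S k P W0 Hk N r a Q Z yh C F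

section
variable {S k : Finset Edg} {A y0 X top : ℤ} {P : Vtx → Prop} {L W0 : Set Vtx}
  {N a Q : ℕ} {Hk : Finset Edg} {r : ℕ} {Z : Finset (ℤ × ℤ)} {yh : ℤ}
  {Gc : Finset Vtx → Prop}

theorem dis_windowG (h : WD S k A y0 X top P L W0 N a Q Hk) (hr1 : 8 ≤ r) (hr : 64 * r ≤ N)
    (hOK : OKG Gc r a Z) {C C' : Finset Vtx} {F : Finset Edg} (hF : F ⊆ UU S k W0)
    (hne : C ≠ C') (hg' : Gc C')
    (h1 : IsT N a ↑F C) (h1' : IsT N a ↑F C') (h2' : A2 S k P W0 L Hk N r a Z yh C' F)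
    (h3 : Trp S k P W0 Hk N r a Q Z yh C F) : False := by
  have ha := h.a64
  obtain ⟨w, hw, hwr⟩ := (hOK C' hg').2
  have hbox : ∀ y ∈ C', |y.1| ≤ (N * a : ℕ) ∧ |y.2| ≤ (2 * N * a : ℕ) := fun y hy =>
    IsT_box h1' hw (core_box hr hwr) hy
  obtain ⟨c, hc, hc8⟩ := A2_far (r := r) (Z := Z) (yh := yh) h hbox h2'
  have hwQ : sd w (0, 0) ≤ (Q * a : ℕ) := by
    have hQ := h.hQ
    have : r * a ≤ Q * a := Nat.mul_le_mul_right _ (by omega)
    omega
  set Tp := UU S k W0 \ (tE N a C ∪ D0 S k P W0 Hk N r a Z yh C) with hTp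
  have key : ∀ x, Reach ((↑F : Set Edg) ∩ ↑(TE N a)) w x →
      Reach ((↑F : Set Edg) ∩ ↑Tp) w x ∨
      ∃ y, Reach ((↑F : Set Edg) ∩ ↑Tp) w y ∧ (8 * r * a : ℕ) < sd y (0, 0) := by
    intro x hx
    induction hx with
    | refl => exact Or.inl (Reach.refl _ _)
    | @tail x x' hx hs ih =>
      rcases ih with ih | ih
      · by_cases hx8 : (8 * r * a : ℕ) < sd x (0, 0)
        · exact Or.inr ⟨x, ih, hx8⟩
        · left
          obtain ⟨e, he, hee⟩ := hs
          have hxC : x ∈ C' := IsT_closed h1' hw hx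
          have hx'C : x' ∈ C' := IsT_closed h1' hw (hx.tail ⟨e, he, hee⟩)
          have hxnC : x ∉ C := fun h5 => IsT_disj h1 h1' hne h5 hxC
          have hx'nC : x' ∉ C := fun h5 => IsT_disj h1 h1' hne h5 hx'C
          have hWS : x ∈ WS N r a Z yh := Or.inr (Or.inr (by omega))
          refine ih.trans (Adj.reach ⟨e, ⟨he.1, ?_⟩, hee⟩)
          rw [mem_coe, hTp, Finset.mem_sdiff, Finset.mem_union, not_or]
          refine ⟨hF (by exact_mod_cast he.1), fun h5 => ?_, fun h5 => ?_⟩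
          · have h6 := (mem_tE.1 h5).2
            rcases hee with ⟨h7, h8⟩ | ⟨h7, h8⟩
            · rw [h7, h8] at h6
              rcases h6 with h6 | h6
              · exact hxnC h6
              · exact hx'nC h6
            · rw [h7, h8] at h6
              rcases h6 with h6 | h6
              · exact hx'nC h6
              · exact hxnC h6
          · unfold D0 at h5
            rw [Finset.mem_union] at h5
            rcases h5 with h5 | h5
            · have h6 := mem_ES.1 h5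
              rcases hee with ⟨h7, h8⟩ | ⟨h7, h8⟩
              · rw [h7] at h6; exact h6.2.2.1 hWS
              · rw [h8] at h6; exact h6.2.2.2 hWS
            · have h6 := mem_HK.1 h5
              have hxu : x = src e ∨ x = tgt e := by
                rcases hee with ⟨h7, _⟩ | ⟨_, h7⟩
                · exact Or.inl h7.symm
                · exact Or.inr h7.symm
              have hPx : P x := by
                rcases hxu with h9 | h9
                · rw [h9]; exact h6.2.1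
                · rw [h9]; exact h6.2.2
              have h7 := (h.hk e h6.1.1 x hxu hPx).1
              obtain ⟨b1, b2⟩ := hbox x hxC
              rw [abs_le] at b1 b2
              rw [lt_abs] at h7
              push_cast at *
              rcases h7 with h7 | h7 | h7 <;>
                nlinarith [Int.natCast_nonneg a, b1.1, b1.2, b2.1, b2.2]
      · exact Or.inr ih
  have hfin : ∀ y, Reach ((↑F : Set Edg) ∩ ↑Tp) w y → (8 * r * a : ℕ) < sd y (0, 0) → False := by
    intro y hy hy8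
    have h5 := h3 w y hwQ hy
    have h6 := sd_tri y w (0, 0)
    rw [sd_comm y w] at h6
    have e1 : ((8 * r * a : ℕ) : ℤ) = 8 * ((r * a : ℕ) : ℤ) := by push_cast; ring
    rw [e1] at hy8
    have h7 : (8:ℤ) * a ≤ ((r * a : ℕ) : ℤ) := by
      have : 8 * a ≤ r * a := Nat.mul_le_mul_right _ hr1
      exact_mod_cast this
    have h8 := sd_nonneg w y
    omega
  rcases key c (IsT_reach h1' hw hc) with h5 | ⟨y, h5, h6⟩
  · exact hfin c h5 hc8
  · exact hfin y h5 h6

open Classical in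
/-- Indexing of the clusters. -/
noncomputable def TIG (Gc : Finset Vtx → Prop) (N a : ℕ) : Finset (Finset Vtx) :=
  ((Finset.Icc (-(N * a : ℕ) : ℤ) (N * a : ℕ) ×ˢ
    Finset.Icc (-(2 * N * a : ℕ) : ℤ) (2 * N * a : ℕ)).powerset).filter (fun C => Gc C)

theorem mem_TIG {C : Finset Vtx} : C ∈ TIG Gc N a ↔
    (∀ y ∈ C, |y.1| ≤ (N * a : ℕ) ∧ |y.2| ≤ (2 * N * a : ℕ)) ∧ Gc C := by
  simp only [TIG, Finset.mem_filter, Finset.mem_powerset]
  constructor
  · rintro ⟨h1, h2⟩
    refine ⟨fun y hy => ?_, h2⟩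
    have := h1 hy
    rw [Finset.mem_product, Finset.mem_Icc, Finset.mem_Icc] at this
    rw [abs_le, abs_le]
    exact this
  · rintro ⟨h1, h2⟩
    refine ⟨fun y hy => ?_, h2⟩
    have := h1 y hy
    rw [Finset.mem_product, Finset.mem_Icc, Finset.mem_Icc]
    rw [abs_le, abs_le] at this
    exact this

theorem windowG (h : WD S k A y0 X top P L W0 N a Q Hk) (hr1 : 8 ≤ r) (hr : 64 * r ≤ N)
    (hOK : OKG Gc r a Z) {κ : ℝ} (hκ0 : 0 < κ) (hκ : ∀ n : ℕ, Win (1/2) κ n) {p cs : ℝ}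
    (hcs : 0 ≤ cs)
    (hbox : p ≤ PQ (1 / 2) (TP N a) (BevG Gc N r a Z yh))
    (hhook : ∀ C : Finset Vtx,
      (∀ y ∈ C, |y.1| ≤ (N * a : ℕ) ∧ |y.2| ≤ (2 * N * a : ℕ)) →
      cs * PQ (1 / 2) (UU S k W0) (fun F => Esc N r a Z yh C (↑F : Set Edg)) ≤
        PQ (1 / 2) (UU S k W0) (A2 S k P W0 L Hk N r a Z yh C))
    {H : Finset Edg} (hH : H ⊆ S \ UU S k W0)
    (hconn : ∀ x ∈ L, Reach (↑(H ∩ k) : Set Edg) (A, y0) x) :
    p * cs * κ ^ (4 * (2 * (32 * Q) + 1) ^ 2) *
      PQ (1 / 2) (UU S k W0) (fun G => Xc (A, y0) (↑(H ∪ G) : Set Edg)) ≤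
    PQ (1 / 2) (UU S k W0) (fun G => Xc (A, y0) (↑(H ∪ G) : Set Edg) ∧
      GdG Gc S k P W0 L Hk N r a Q Z yh G) := by
  classical
  have ok : Ok (fun _ : Edg => (1/2 : ℝ)) := okq (by norm_num) (by norm_num)
  have ha := h.a64
  have hES : ∀ C : Finset Vtx, ES N r a Z yh C ⊆ UU S k W0 := fun C e he =>
    tp_UU h (mem_ES.1 he).1
  refine win_prob ok (X1 := fun G => Xc (A, y0) (↑(H ∪ G) : Set Edg))
    (Gd := GdG Gc S k P W0 L Hk N r a Q Z yh) ?_
    (TIG Gc N a) (fun C => tE N a C) (fun C => D0 S k P W0 Hk N r a Z yh C)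
    (fun C _ => tE_UU h C) (fun C _ => D0_UU h C) (fun C _ => tE_D0_disj h C)
    (A1 := fun C F => IsT N a ↑F C) (A2 := fun C F => A2 S k P W0 L Hk N r a Z yh C F)
    (Tr := fun C F => Trp S k P W0 Hk N r a Q Z yh C F)
    (fun C _ F _ => IsT_local F) (fun C _ F _ => A2_local C (Finset.Subset.refl _) F)
    (fun C _ F _ => Trp_local C F) (fun C _ => Trp_decr C) ?_ ?_ (pow_nonneg hκ0.le _)
    (fun C _ => Trp_prob hκ ha C) ?_
  · intro F G h1 _ h3 h4
    apply h3
    intro w hw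
    refine h4 w (hw.mono ?_)
    exact_mod_cast Finset.union_subset_union (Finset.Subset.refl H) h1
  · rintro C hC C' hC' hne F hF ⟨⟨h1, h2, h3⟩, ⟨h1', h2', h3'⟩⟩
    exact dis_windowG h hr1 hr hOK hF hne (mem_TIG.1 hC').2 h1 h1' h2' h3
  · intro C hC F hF h1 h2 h3 hX
    exact ⟨det_window h hH hF C hconn h3 hX, ⟨C, (mem_TIG.1 hC).2, h1, h2, h3⟩⟩
  · -- the sum
    have hstep : ∀ C ∈ TIG Gc N a,
        cs * PQ (1 / 2) (UU S k W0) (fun F => IsT N a (↑F : Set Edg) C ∧
          Esc N r a Z yh C (↑F : Set Edg)) ≤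
        Pr (fun _ => (1/2:ℝ)) (UU S k W0) (fun F => IsT N a (↑F : Set Edg) C) *
          Pr (fun _ => (1/2:ℝ)) (UU S k W0) (fun F => A2 S k P W0 L Hk N r a Z yh C F) := by
      intro C hC
      have e1 : PQ (1 / 2) (UU S k W0) (fun F => IsT N a (↑F : Set Edg) C ∧
          Esc N r a Z yh C (↑F : Set Edg)) =
          Pr (fun _ => (1/2:ℝ)) (UU S k W0) (fun F => IsT N a (↑F : Set Edg) C) *
          Pr (fun _ => (1/2:ℝ)) (UU S k W0) (fun F => Esc N r a Z yh C (↑F : Set Edg)) := by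
        apply Pr_indep (S := tE N a C) (T := ES N r a Z yh C) (tE_UU h C) (hES C)
        · rw [Finset.disjoint_left]
          intro e he he2
          exact (mem_ES.1 he2).2.1 he
        · intro F _
          exact IsT_local F
        · intro F _
          exact Esc_local C (Finset.Subset.refl _) F
      have h2 := hhook C (mem_TIG.1 hC).1
      have h3 : 0 ≤ Pr (fun _ => (1/2:ℝ)) (UU S k W0) (fun F => IsT N a (↑F : Set Edg) C) :=
        Pr_nonneg ok _ _
      rw [e1]
      calc cs * (Pr (fun _ => (1/2:ℝ)) (UU S k W0) (fun F => IsT N a (↑F : Set Edg) C) *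
            Pr (fun _ => (1/2:ℝ)) (UU S k W0) (fun F => Esc N r a Z yh C (↑F : Set Edg)))
          = Pr (fun _ => (1/2:ℝ)) (UU S k W0) (fun F => IsT N a (↑F : Set Edg) C) *
            (cs * PQ (1/2) (UU S k W0) (fun F => Esc N r a Z yh C (↑F : Set Edg))) := by ring
        _ ≤ _ := mul_le_mul_of_nonneg_left h2 h3
    have hloc : PQ (1 / 2) (UU S k W0) (BevG Gc N r a Z yh) =
        PQ (1 / 2) (TP N a) (BevG Gc N r a Z yh) := by
      apply Pr_local (tp_UU h)
      intro F _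
      unfold BevG
      apply exists_congr
      intro C
      have e1 : IsT N a (↑(F ∩ TP N a) : Set Edg) C ↔ IsT N a (↑F : Set Edg) C := by
        unfold IsT
        rw [inter_inter_of_sub (TE_TP N a)]
      rw [e1, Esc_local C (D := TP N a) (fun e he => (mem_ES.1 he).1) F]
    have hun : PQ (1 / 2) (UU S k W0) (BevG Gc N r a Z yh) ≤
        ∑ C ∈ TIG Gc N a, PQ (1 / 2) (UU S k W0)
          (fun F => IsT N a (↑F : Set Edg) C ∧ Esc N r a Z yh C (↑F : Set Edg)) := by
      unfold PQ Pr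
      rw [← Ex_sum]
      apply Ex_mono ok
      intro F _
      by_cases hB : BevG Gc N r a Z yh F
      · obtain ⟨C, hT, hG, hE⟩ := hB
        have hC : C ∈ TIG Gc N a := by
          rw [mem_TIG]
          refine ⟨?_, hG⟩
          obtain ⟨w, hw, hwr⟩ := (hOK C hG).2
          exact fun y hy => IsT_box hT hw (core_box hr hwr) hy
        calc ind (BevG Gc N r a Z yh F) ≤ 1 := ind_le_one _
          _ = ind (IsT N a (↑F : Set Edg) C ∧ Esc N r a Z yh C (↑F : Set Edg)) :=
              (ind_of ⟨hT, hE⟩).symm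
          _ ≤ _ := Finset.single_le_sum (f := fun C => ind (IsT N a (↑F : Set Edg) C ∧
              Esc N r a Z yh C (↑F : Set Edg))) (fun _ _ => ind_nonneg _) hC
      · rw [ind_not_of hB]
        exact Finset.sum_nonneg (fun _ _ => ind_nonneg _)
    calc p * cs = cs * p := by ring
      _ ≤ cs * PQ (1 / 2) (TP N a) (BevG Gc N r a Z yh) :=
          mul_le_mul_of_nonneg_left hbox hcs
      _ = cs * PQ (1 / 2) (UU S k W0) (BevG Gc N r a Z yh) := by rw [hloc]
      _ ≤ cs * ∑ C ∈ TIG Gc N a, PQ (1 / 2) (UU S k W0)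
          (fun F => IsT N a (↑F : Set Edg) C ∧ Esc N r a Z yh C (↑F : Set Edg)) :=
          mul_le_mul_of_nonneg_left hun hcs
      _ = ∑ C ∈ TIG Gc N a, cs * PQ (1 / 2) (UU S k W0)
          (fun F => IsT N a (↑F : Set Edg) C ∧ Esc N r a Z yh C (↑F : Set Edg)) := by
          rw [Finset.mul_sum]
      _ ≤ _ := Finset.sum_le_sum hstep

end

end Pool.Agent.V5helper99.OX
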