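import Pool.Agent.V5helper99.OX.Gen1
import Pool.Agent.V5helper99.OB.Trans

/-!
# Windows for general good clusters, part 2: the conclusion in one window
-/

set_option autoImplicit false
set_option maxHeartbeats 4000000

namespace Pool.Agent.V5helper99.OX

open H974 H12S Finset H984P H984N Pool.Agent.V5helper99.OB

/-- The set `D` contains a good cluster `C` of the box `T`, and all the vertices of `D` in the
corridor are in `C`. -/
def Conc (Gc : Finset Vtx → Prop) (N r a : ℕ) (Z : Finset (ℤ × ℤ)) (yh : ℤ) (D : Set Vtx) : Prop :=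
  ∃ C : Finset Vtx, Gc C ∧ (∀ x ∈ C, x ∈ D) ∧
    (∀ y ∈ C, |y.1| ≤ (N * a : ℕ) ∧ |y.2| ≤ (2 * N * a : ℕ)) ∧
    ∀ d ∈ D, (sd d (0, 0) ≤ (8 * r * a : ℕ) - 2 * a ∨ d ∈ rgn Z a 2 ∨
      (|d.1 + (N * a : ℕ)| ≤ (14 * a : ℕ) ∧ |d.2 - yh * a| ≤ (7 * a : ℕ)) ∨
      (d.1 ≤ -((N + 13) * a : ℕ) ∧ |d.2| ≤ ((2 * N + 10) * a : ℕ))) → d ∈ C

section
variable {S k : Finset Edg} {A y0 X top : ℤ} {P : Vtx → Prop} {L W0 : Set Vtx}
  {N a Q : ℕ} {Hk : Finset Edg} {r : ℕ} {Z : Finset (ℤ × ℤ)} {yh : ℤ}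
  {Gc : Finset Vtx → Prop}

theorem concG (h : WD S k A y0 X top P L W0 N a Q Hk) (hr : 64 * r ≤ N) (hr1 : 8 ≤ r)
    (hOK : OKG Gc r a Z) (hpat : Pat N Z yh)
    {H G : Finset Edg} (hH : H ⊆ S \ UU S k W0) (hG : G ⊆ UU S k W0)
    (hconn : ∀ x ∈ L, Reach (↑(H ∩ k) : Set Edg) (A, y0) x)
    (hX : Xc (A, y0) (↑(H ∪ G) : Set Edg))
    (hGd : GdG Gc S k P W0 L Hk N r a Q Z yh G) :
    Conc Gc N r a Z yh {d | Reach (↑(H ∪ G) : Set Edg) (A, y0) d} := by
  obtain ⟨C, hGC, hT, hA2, hTr⟩ := hGd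
  have ha := h.a64
  obtain ⟨hCa, w0, hw0, hw0r⟩ := hOK C hGC
  have hbox : ∀ y ∈ C, |y.1| ≤ (N * a : ℕ) ∧ |y.2| ≤ (2 * N * a : ℕ) := fun y hy =>
    IsT_box hT hw0 (core_box hr hw0r) hy
  have hno := fun d hd hR => RG_no (d := d) h hr (by omega) hH hG hpat hCa hbox hT hTr hX hd hR
  have e5 : ((N * a : ℕ) : ℤ) = N * a := by push_cast; ring
  have e1 : (((N + 12) * a : ℕ) : ℤ) = N * a + 12 * a := by push_cast; ring
  have e1' : (((N + 13) * a : ℕ) : ℤ) = N * a + 13 * a := by push_cast; ring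
  have e3 : (((N + 8) * a : ℕ) : ℤ) = N * a + 8 * a := by push_cast; ring
  have e4 : (((2 * N + 11) * a : ℕ) : ℤ) = 2 * (N * a) + 11 * a := by push_cast; ring
  have e4' : (((2 * N + 10) * a : ℕ) : ℤ) = 2 * (N * a) + 10 * a := by push_cast; ring
  have e6 : ((8 * r * a : ℕ) : ℤ) = 8 * (r * a) := by push_cast; ring
  have e8 : (64 : ℤ) * (r * a) ≤ N * a := by
    have : 64 * r * a ≤ N * a := Nat.mul_le_mul_right _ hr
    have h2 : (((64 * r * a : ℕ)) : ℤ) ≤ ((N * a : ℕ) : ℤ) := by exact_mod_cast this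
    push_cast at h2
    linarith
  have e9 : (8 : ℤ) * a ≤ r * a := by
    have : 8 * a ≤ r * a := Nat.mul_le_mul_right _ hr1
    have h2 : ((8 * a : ℕ) : ℤ) ≤ ((r * a : ℕ) : ℤ) := by exact_mod_cast this
    push_cast at h2
    linarith
  have ha0 : (0:ℤ) ≤ a := Int.natCast_nonneg a
  have hyh : |yh| ≤ N := (hpat.bd _ hpat.mth).2
  have hC : ∀ c ∈ C, Reach (↑(H ∪ G) : Set Edg) (A, y0) c := by
    intro c hc
    obtain ⟨c', hc', x, hx, hr'⟩ := hA2
    have h1 : Reach (↑(H ∪ G) : Set Edg) (A, y0) x := (hconn x hx).mono (by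
      intro e he
      rw [mem_coe, Finset.mem_inter] at he
      rw [mem_coe]
      exact Finset.mem_union_left _ he.1)
    have hGs : (↑G : Set Edg) ⊆ ↑(H ∪ G) := by
      intro e he
      rw [mem_coe] at he ⊢
      exact Finset.mem_union_right _ he
    have h2 : Reach (↑(H ∪ G) : Set Edg) c' x := hr'.mono (Set.inter_subset_left.trans hGs)
    have h3 : Reach (↑(H ∪ G) : Set Edg) c' c :=
      (IsT_reach hT hc' hc).mono (Set.inter_subset_left.trans hGs)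
    exact h1.trans (h2.symm.trans h3)
  refine ⟨C, hGC, hC, hbox, fun d hd hd2 => ?_⟩
  apply hno d hd
  intro u hu huA
  have hu1 : sd d u ≤ a := by have := sd_nonneg d u; omega
  have hu2 := hu1
  rw [sd_le_iff, abs_le, abs_le] at hu2
  rcases hd2 with h1 | h1 | h1 | h1
  · have h2 : sd u (0, 0) ≤ (8 * r * a : ℕ) - a := by
      have := sd_tri u d (0, 0)
      rw [sd_comm u d] at this
      omega
    refine ⟨?_, Or.inr (Or.inr (Or.inl h2))⟩
    rw [sd_le_iff, abs_le, abs_le, e6] at h2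
    simp only [sub_zero] at h2
    rw [abs_le, e3, e4]
    omega
  · have h2 : u ∈ rgn Z a 3 := rgn_nb h1 (s := a) hu1 (by push_cast; omega)
    refine ⟨?_, Or.inl h2⟩
    obtain ⟨z, hz, h3, h4⟩ := h2
    have h5 := hpat.bd z hz
    rw [abs_le] at h3 h4
    rw [abs_le, abs_le] at h5
    have m1 : z.1 * a ≤ N * a := mul_le_mul_of_nonneg_right h5.1.2 ha0
    have m2 : z.2 * a ≤ N * a := mul_le_mul_of_nonneg_right h5.2.2 ha0
    have m3 : -((N:ℤ) * a) ≤ z.2 * a := by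
      have := mul_le_mul_of_nonneg_right h5.2.1 ha0
      linarith
    rw [abs_le, e3, e4]
    push_cast at h3 h4
    refine ⟨huA, by omega, by omega, by omega⟩
  · rw [abs_le] at hyh
    have m2 : yh * a ≤ N * a := mul_le_mul_of_nonneg_right hyh.2 ha0
    have m3 : -((N:ℤ) * a) ≤ yh * a := by
      have := mul_le_mul_of_nonneg_right hyh.1 ha0
      linarith
    rw [abs_le, abs_le, e5] at h1
    push_cast at h1
    refine ⟨?_, Or.inr (Or.inl ?_)⟩
    · rw [abs_le, e3, e4]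
      refine ⟨huA, by omega, by omega, by omega⟩
    · rw [abs_le, abs_le, e5]
      push_cast
      omega
  · rw [abs_le, e1', e4'] at h1
    refine ⟨?_, Or.inr (Or.inr (Or.inr ?_))⟩
    · rw [abs_le, e3, e4]
      refine ⟨huA, by omega, by omega, by omega⟩
    · rw [e1]; omega

end

section
variable {N a r : ℕ} {Z : Finset (ℤ × ℤ)} {yh : ℤ} {D : Set Vtx}

/-- The row from the mouth to the left. -/
theorem row_free (hpat : Pat N Z yh) {C : Finset Vtx}
    (hCa : ∀ x ∈ C, x ∉ rgn Z a 16)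
    (hbox : ∀ y ∈ C, |y.1| ≤ (N * a : ℕ) ∧ |y.2| ≤ (2 * N * a : ℕ))
    (hcor : ∀ d ∈ D, (sd d (0, 0) ≤ (8 * r * a : ℕ) - 2 * a ∨ d ∈ rgn Z a 2 ∨
      (|d.1 + (N * a : ℕ)| ≤ (14 * a : ℕ) ∧ |d.2 - yh * a| ≤ (7 * a : ℕ)) ∨
      (d.1 ≤ -((N + 13) * a : ℕ) ∧ |d.2| ≤ ((2 * N + 10) * a : ℕ))) → d ∈ C)
    {y : Vtx} (hy : y ∈ rgn {(-(N : ℤ), yh)} a 1) (j : ℕ) : (y.1 - j, y.2) ∉ D := by
  intro hd
  obtain ⟨z, hz, hy1, hy2⟩ := hy
  rw [Finset.mem_singleton] at hz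
  subst hz
  have hyh : |yh| ≤ N := (hpat.bd _ hpat.mth).2
  have ha0 : (0:ℤ) ≤ a := Int.natCast_nonneg a
  rw [abs_le] at hyh
  have m2 : yh * a ≤ N * a := mul_le_mul_of_nonneg_right hyh.2 ha0
  have m3 : -((N:ℤ) * a) ≤ yh * a := by
    have := mul_le_mul_of_nonneg_right hyh.1 ha0
    linarith
  have e5 : ((N * a : ℕ) : ℤ) = N * a := by push_cast; ring
  have e1' : (((N + 13) * a : ℕ) : ℤ) = N * a + 13 * a := by push_cast; ring
  have e4' : (((2 * N + 10) * a : ℕ) : ℤ) = 2 * (N * a) + 10 * a := by push_cast; ring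
  have e0 : (-(N:ℤ)) * a = -((N:ℤ) * a) := by ring
  simp only [e0] at hy1 hy2
  rw [abs_le] at hy1 hy2
  push_cast at hy1 hy2
  have hm := hpat.mth
  by_cases h1 : -((N:ℤ) * a) - 14 * a ≤ y.1 - j
  · have h2 : ((y.1 - j, y.2) : Vtx) ∈ C := by
      apply hcor _ hd
      right; right; left
      rw [abs_le, abs_le, e5]
      simp only
      push_cast
      omega
    refine hCa _ h2 ⟨(-(N : ℤ), yh), hm, ?_, ?_⟩
    · simp only [e0]
      rw [abs_le]
      push_cast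
      omega
    · simp only
      rw [abs_le]
      push_cast
      omega
  · have h2 : ((y.1 - j, y.2) : Vtx) ∈ C := by
      apply hcor _ hd
      right; right; right
      rw [abs_le, e1', e4']
      simp only
      omega
    have h3 := (hbox _ h2).1
    rw [abs_le, e5] at h3
    simp only at h3
    omega

end

end Pool.Agent.V5helper99.OX
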