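import Pool.Agent.V5helper99.OX.Gen2
import Pool.Agent.V5helper99.OB.Dock3

/-!
# Windows for general good clusters, part 3: docking
-/

set_option autoImplicit false
set_option maxHeartbeats 4000000

namespace Pool.Agent.V5helper99.OX

open H974 H12S Finset H984P H984N Pool.Agent.V5helper99.OB

/-- The conclusion for one window. -/
def DockG (S k : Finset Edg) (v : Vtx) (W : Set Vtx) (H0 : Finset Edg) (Wp : Set Vtx → Prop)
    (c1 : ℝ) : Prop :=
  ∃ Gd : Finset Edg → Prop, (∀ F, Gd F ↔ Gd (F ∩ UU S k W)) ∧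
    (∀ H, H ⊆ (S \ k) \ UU S k W →
      c1 * PQ (1 / 2) (UU S k W) (fun G => Xc v (↑(H0 ∪ (H ∪ G)) : Set Edg)) ≤
      PQ (1 / 2) (UU S k W) (fun G => Xc v (↑(H0 ∪ (H ∪ G)) : Set Edg) ∧ Gd G)) ∧
    ∀ F, F ⊆ S \ k → Xc v (↑(H0 ∪ F) : Set Edg) → Gd F →
      Wp {w | Reach (↑(H0 ∪ F) : Set Edg) v w}

theorem dock_genG {S k : Finset Edg} {v c : Vtx} {X top : ℤ} {P : Vtx → Prop} {L W : Set Vtx}
    {N a Q r : ℕ} {Hk : Finset Edg} {Z : Finset (ℤ × ℤ)} {yh : ℤ}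
    {p cs κ : ℝ} {Gc : Finset Vtx → Prop} {Wp : Set Vtx → Prop}
    (h : WD ((tc c).mp S) ((tc c).mp k) (v.1 - c.1) (v.2 - c.2) (X - c.1) (top - c.2)
      (fun x => P (x.1 + c.1, x.2 + c.2)) {x | (x.1 + c.1, x.2 + c.2) ∈ L}
      {x | (x.1 + c.1, x.2 + c.2) ∈ W} N a Q Hk)
    (hr1 : 8 ≤ r) (hr : 64 * r ≤ N) (hOK : OKG Gc r a Z)
    (hκ0 : 0 < κ) (hκ : ∀ n : ℕ, Win (1/2) κ n) (hcs : 0 ≤ cs) (hpat : Pat N Z yh)
    (hbox : p ≤ PQ (1 / 2) (TP N a) (BevG Gc N r a Z yh))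
    (hhook : ∀ C : Finset Vtx, 
      (∀ y ∈ C, |y.1| ≤ (N * a : ℕ) ∧ |y.2| ≤ (2 * N * a : ℕ)) →
      cs * PQ (1 / 2) (UU ((tc c).mp S) ((tc c).mp k) {x | (x.1 + c.1, x.2 + c.2) ∈ W})
          (fun F => Esc N r a Z yh C (↑F : Set Edg)) ≤
        PQ (1 / 2) (UU ((tc c).mp S) ((tc c).mp k) {x | (x.1 + c.1, x.2 + c.2) ∈ W})
          (A2 ((tc c).mp S) ((tc c).mp k) (fun x => P (x.1 + c.1, x.2 + c.2))
            {x | (x.1 + c.1, x.2 + c.2) ∈ W} {x | (x.1 + c.1, x.2 + c.2) ∈ L} Hk N r a Z yh C))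
    (hW : ∀ F : Finset Edg, F ⊆ S →
      Conc Gc N r a Z yh {x | Reach (↑F : Set Edg) v (x.1 + c.1, x.2 + c.2)} →
      Wp {w | Reach (↑F : Set Edg) v w})
    {H0 : Finset Edg} (hH0 : H0 ⊆ k) (hH0S : H0 ⊆ S)
    (hconn : ∀ x ∈ L, Reach (↑(H0 ∩ k) : Set Edg) v x) :
    DockG S k v W H0 Wp (p * cs * κ ^ (4 * (2 * (32 * Q) + 1) ^ 2)) := by
  classical
  have hU := UU_trl S k W c
  have hconn' : ∀ H1 : Finset Edg, H0 ⊆ H1 → ∀ x ∈ {x : Vtx | (x.1 + c.1, x.2 + c.2) ∈ L},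
      Reach (↑((tc c).mp H1 ∩ (tc c).mp k) : Set Edg) (v.1 - c.1, v.2 - c.2) x := by
    intro H1 hH1 x hx
    have h1 := (tc c).reach (hconn _ hx)
    rw [tc_ψ, tc_ψ, ← LSym.coe_mp] at h1
    simp only [add_sub_cancel_right] at h1
    refine h1.mono ?_
    rw [← LSym.mp_inter]
    exact_mod_cast LSym.mp_mono _ (Finset.inter_subset_inter_right hH1)
  have hdis : ∀ e, e ∈ k → e ∉ UU S k W := fun e he he2 => (mem_UU.1 he2).1.2 he
  have hsub : ∀ H, H ⊆ (S \ k) \ UU S k W →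
      (tc c).mp (H0 ∪ H) ⊆ (tc c).mp S \ UU ((tc c).mp S) ((tc c).mp k)
        {x | (x.1 + c.1, x.2 + c.2) ∈ W} := by
    intro H hH
    rw [hU, ← LSym.mp_sdiff]
    apply LSym.mp_mono
    intro e he
    rw [Finset.mem_union] at he
    rw [Finset.mem_sdiff]
    rcases he with he | he
    · exact ⟨hH0S he, hdis e (hH0 he)⟩
    · have := Finset.mem_sdiff.1 (hH he)
      exact ⟨(Finset.mem_sdiff.1 this.1).1, this.2⟩
  refine ⟨fun F => GdG Gc ((tc c).mp S) ((tc c).mp k) (fun x => P (x.1 + c.1, x.2 + c.2))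
      {x | (x.1 + c.1, x.2 + c.2) ∈ W} {x | (x.1 + c.1, x.2 + c.2) ∈ L} Hk N r a Q Z yh
      ((tc c).mp (F ∩ UU S k W)), ?_, ?_, ?_⟩
  · intro F
    simp only [Finset.inter_assoc, Finset.inter_self]
  · intro H hH
    have h1 := windowG h hr1 hr hOK hκ0 hκ hcs hbox (fun C hC => hhook C hC)
      (hsub H hH) (hconn' _ Finset.subset_union_left)
    rw [hU, PQ_mp, PQ_mp] at h1
    have e1 : ∀ G : Finset Edg, Xc (v.1 - c.1, v.2 - c.2)
        (↑((tc c).mp (H0 ∪ H) ∪ (tc c).mp G) : Set Edg) ↔ Xc v (↑(H0 ∪ (H ∪ G)) : Set Edg) := by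
      intro G
      rw [← mp_union, Finset.union_assoc]
      exact Xc_trl v _ c
    simp only [e1] at h1
    refine h1.trans (le_of_eq ?_)
    apply Pr_congr
    intro G hG
    beta_reduce
    rw [Finset.inter_eq_left.2 hG]
  · intro F hF hX hGd
    set U := UU S k W with hUd
    have hFe : F = (F \ U) ∪ (F ∩ U) := (Finset.sdiff_union_inter F U).symm
    have hH : F \ U ⊆ (S \ k) \ U := Finset.sdiff_subset_sdiff hF (Finset.Subset.refl _)
    have e2 : (tc c).mp (H0 ∪ (F \ U)) ∪ (tc c).mp (F ∩ U) = (tc c).mp (H0 ∪ F) := by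
      rw [← mp_union, Finset.union_assoc, ← hFe]
    have h2 := concG h hr hr1 hOK hpat (hsub _ hH) (G := (tc c).mp (F ∩ U))
      (by rw [hU]; exact LSym.mp_mono _ Finset.inter_subset_right)
      (hconn' _ Finset.subset_union_left) (by rw [e2]; exact (Xc_trl v _ c).2 hX) hGd
    rw [e2] at h2
    refine hW (H0 ∪ F) (Finset.union_subset hH0S (hF.trans Finset.sdiff_subset)) ?_
    have e3 : {d | Reach (↑((tc c).mp (H0 ∪ F)) : Set Edg) (v.1 - c.1, v.2 - c.2) d} =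
        {x | Reach (↑(H0 ∪ F) : Set Edg) v (x.1 + c.1, x.2 + c.2)} := by
      ext w
      rw [Set.mem_ofPred_eq, Set.mem_ofPred_eq, ← (tc c).reach_iff (F := (↑(H0 ∪ F) : Set Edg)),
        ← LSym.coe_mp, tc_ψ, tc_ψ]
      simp
    rw [← e3]
    exact h2


theorem dockG {n m ρ N r kk K : ℕ} {k H0 : Finset Edg} {v : Vtx} {P : Vtx → Prop}
    {L : Set Vtx} {p κ s θ σ : ℝ} {Gc : ℕ → Finset (ℤ × ℤ) → ℤ → Finset Vtx → Prop}
    {Wp : Set Vtx → Prop}
    (sdd : SD k v.1 v.2 (v.1 + m) n P L) (hv1 : 0 ≤ v.1) (hvm : v.1 + m ≤ n)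
    (hvn : v.2 ≤ n) (hvy : 64 * (ρ : ℤ) ≤ v.2) (hρm : 128 * ρ ≤ m)
    (hnA : ∀ y, v.2 < y → (v.1, y) ∉ L)
    (hnt : ∀ x ∈ L, x.1 ≤ v.1 + ⌊θ * n⌋ → v.2 - 17 * ρ ≤ x.2 → x.2 ≤ v.2 - 13 * ρ → False)
    (hr1 : 8 ≤ r) (hr : 64 * r ≤ N)
    (hκ0 : 0 < κ) (hκ : ∀ n : ℕ, Win (1/2) κ n)
    (hbox : ∀ a : ℕ, s * n ≤ a → a ≤ n → ∃ (Z : Finset (ℤ × ℤ)) (yh : ℤ), Pat N Z yh ∧
      OKG (Gc a Z yh) r a Z ∧ p ≤ PQ (1 / 2) (TP N a) (BevG (Gc a Z yh) N r a Z yh))
    (hW : ∀ (a : ℕ) (Z : Finset (ℤ × ℤ)) (yh : ℤ) (c : Vtx) (F : Finset Edg), s * n ≤ a → a ≤ n →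
      Pat N Z yh → F ⊆ RE 0 n 0 n →
      Conc (Gc a Z yh) N r a Z yh {x | Reach (↑F : Set Edg) v (x.1 + c.1, x.2 + c.2)} →
      Wp {w | Reach (↑F : Set Edg) v w})
    (hk : ∀ h : ℤ, 1 ≤ h → (1/2 : ℝ) ^ kk ≤ hh (1/2) (K * h) h) (hK : 64 * N + 2048 ≤ K)
    (hsθ : s * (128 * (2 * N + 12)) ≤ θ) (hsσ : s * (128 * (2 * N + 12)) ≤ σ)
    (hσρ : σ * n ≤ ρ) (h64 : 64 ≤ s * n)
    (hH0 : H0 ⊆ k) (hH0S : H0 ⊆ RE 0 n 0 n)
    (hconn : ∀ x ∈ L, Reach (↑(H0 ∩ k) : Set Edg) v x) :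
    DockG (RE 0 n 0 n) k v (W00 v ρ) H0 Wp
      (p * (1/2) ^ (8 * kk) * κ ^ (4 * (2 * (32 * (4000 * (2 * N + 12))) + 1) ^ 2)) := by
  classical
  have hN : 32 ≤ N := by omega
  have hn : 1 ≤ n := by
    rcases Nat.eq_zero_or_pos n with h | h
    · rw [h] at h64; norm_num at h64
    · exact h
  have hn' : (0:ℝ) < n := by exact_mod_cast hn
  have hN' : (0:ℝ) ≤ N := Nat.cast_nonneg N
  have hmn : (m : ℤ) ≤ n := by omega
  by_cases hI : ∃ x1 ∈ L, v.2 - 16 * ρ ≤ x1.2 ∧ x1.2 ≤ v.2 - 14 * ρ ∧ 8 * (x1.1 - v.1) ≤ ρ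
  · obtain ⟨x1, hx1, h1, h2, h3⟩ := hI
    obtain ⟨p', hp', h4, h5, h6⟩ := exists_close (A := v.1) (lo := v.2 - 17 * ρ)
      (hi := v.2 - 13 * ρ) sdd.LA hx1 (by omega) (by omega)
    have h7 := h6 x1 hx1 (by omega) (by omega)
    rw [sub_self, abs_zero, add_zero] at h7
    have h8 := sdd.LA p' hp'
    have h9 : ⌊θ * n⌋ < p'.1 - v.1 := by
      by_contra hcon
      exact hnt p' hp' (by omega) h4 h5
    have h7' := h7
    have h10 : -(p'.2 - x1.2) ≤ |p'.2 - x1.2| := neg_le_abs _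
    have h11 : (p'.2 - x1.2) ≤ |p'.2 - x1.2| := le_abs_self _
    set g : ℤ := p'.1 - v.1 with hg
    have hg0 : 0 ≤ g := by omega
    -- the scale
    set H8 : ℤ := 8 * (2 * N + 12) with hH8
    have hH8p : 0 < H8 := by positivity
    obtain ⟨a, haa⟩ : ∃ a : ℕ, (a : ℤ) = g / H8 := ⟨(g / H8).toNat, by
      have := Int.ediv_nonneg hg0 hH8p.le
      omega⟩
    have e1 : H8 * a ≤ g := by rw [haa]; exact Int.mul_ediv_self_le hH8p.ne'
    have e2 : g < H8 * a + H8 := by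
      rw [haa]
      have := Int.lt_ediv_add_one_mul_self g hH8p
      linarith
    have e3 : 8 * bb N a = H8 * a := by unfold bb; push_cast; ring
    have hga : (g : ℝ) < 8 * (2 * N + 12) * a + 8 * (2 * N + 12) := by
      have : ((g : ℤ) : ℝ) < ((H8 * a + H8 : ℤ) : ℝ) := by exact_mod_cast e2
      rw [hH8] at this
      push_cast at this
      exact this
    have hgθ : θ * n < g := by
      have : (⌊θ * n⌋ : ℝ) + 1 ≤ g := by exact_mod_cast h9
      have := Int.lt_floor_add_one (θ * n)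
      linarith
    have hsa : s * n ≤ a := by
      have k1 : s * (128 * (2 * N + 12)) * n ≤ θ * n := mul_le_mul_of_nonneg_right hsθ hn'.le
      have k2 : (8 * (2 * (N:ℝ) + 12)) * (16 * (s * n)) < (8 * (2 * N + 12)) * (a + 1) := by
        linarith
      have k3 := lt_of_mul_lt_mul_left k2 (by positivity)
      linarith
    have ha64 : 64 ≤ a := by
      have : (64 : ℝ) ≤ a := h64.trans hsa
      exact_mod_cast this
    have hbl := bb_lo (N := N) ha64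
    obtain ⟨e9, e10, eb, e32, ha1, e2'⟩ := bb_facts (N := N) (a := a) (by omega) hN
    have han : a ≤ n := by omega
    obtain ⟨Z, yh, hpat, hOK, hbx⟩ := hbox a hsa han
    have hfree : ∀ x ∈ L, x.2 - p'.2 ≤ g → p'.2 - x.2 ≤ g → 3 * g ≤ 4 * (x.1 - v.1) := by
      intro x hx k1 k2
      have k3 := h6 x hx (by omega) (by omega)
      have k4 : |x.2 - x1.2| ≤ |x.2 - p'.2| + |p'.2 - x1.2| := abs_sub_le _ _ _
      have k5 : |x.2 - p'.2| ≤ g := by rw [abs_le]; omega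
      omega
    set c : Vtx := (v.1 + 4 * bb N a, p'.2) with hc
    have c1 : c.1 = v.1 + 4 * bb N a := by rw [hc]
    have c2 : c.2 = p'.2 := by rw [hc]
    have hwd := wd1 (ρ := ρ) (g := g) (cy := p'.2) sdd hv1 hvm hvn hvy hρm ha64 hN (by omega)
      (by omega) (by omega) (by omega) hfree hc
    refine dock_genG (a := a) (c := c) (Q := 4000 * (2 * N + 12)) (Z := Z) (yh := yh) hwd hr1 hr
      hOK hκ0 hκ (by positivity) hpat hbx (fun C hC => ?_)
      (fun F hF hc => hW a Z yh c F hsa han hpat hF hc) hH0 hH0S hconn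
    refine hook1 hwd hN hr hpat ?_ ?_ ?_ ?_ hk (by omega) hC
    · intro e he hne
      exfalso
      apply hne
      rw [tc_RE]
      refine Hk1_sub (by omega) hN ?_ ?_ ?_ ?_ he
      · rw [c1]; omega
      · rw [c1]; omega
      · rw [c2]; omega
      · rw [c2]; omega
    · intro x hx k1 k2
      have k3 := hfree (x.1 + c.1, x.2 + c.2) hx (by simp only [c2]; omega)
        (by simp only [c2]; omega)
      simp only [c1] at k3
      rw [e10]
      omega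
    · refine ⟨(g - 4 * bb N a, 0), ?_, ?_, ?_, ?_⟩
      · show (g - 4 * bb N a + c.1, (0:ℤ) + c.2) ∈ L
        have : ((g - 4 * bb N a + c.1, (0:ℤ) + c.2) : Vtx) = p' := by
          rw [c1, c2]
          apply Prod.ext <;> simp only <;> omega
        rw [this]
        exact hp'
      · simp only; omega
      · simp only; omega
      · simp only; omega
    · rw [c2]; omega
  · push Not at hI
    set H64 : ℕ := 64 * (2 * N + 12) with hH64
    have hH64p : 0 < H64 := by omega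
    obtain ⟨a, haa⟩ : ∃ a : ℕ, a = ρ / H64 := ⟨_, rfl⟩
    have e1 : H64 * a ≤ ρ := by rw [haa]; exact Nat.mul_div_le _ _
    have e2 : ρ < H64 * a + H64 := by
      rw [haa]
      have := Nat.lt_mul_div_succ ρ hH64p
      linarith
    have e3 : 64 * bb N a = ((H64 * a : ℕ) : ℤ) := by unfold bb; rw [hH64]; push_cast; ring
    have hsa : s * n ≤ a := by
      have k0 : (ρ : ℝ) < 64 * (2 * N + 12) * a + 64 * (2 * N + 12) := by
        have : ((ρ : ℕ) : ℝ) < ((H64 * a + H64 : ℕ) : ℝ) := by exact_mod_cast e2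
        rw [hH64] at this
        push_cast at this
        exact this
      have k1 : s * (128 * (2 * N + 12)) * n ≤ σ * n := mul_le_mul_of_nonneg_right hsσ hn'.le
      have k2 : (64 * (2 * (N:ℝ) + 12)) * (2 * (s * n)) < (64 * (2 * N + 12)) * (a + 1) := by
        linarith
      have k3 := lt_of_mul_lt_mul_left k2 (by positivity)
      linarith
    have ha64 : 64 ≤ a := by
      have : (64 : ℝ) ≤ a := h64.trans hsa
      exact_mod_cast this
    have hbl := bb_lo (N := N) ha64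
    have hρ1 : 64 * bb N a ≤ ρ := by rw [e3]; exact_mod_cast e1
    have hρ2 : (ρ : ℤ) ≤ 128 * bb N a := by
      have : (ρ : ℤ) < ((H64 * a : ℕ) : ℤ) + (H64 : ℤ) := by exact_mod_cast e2
      rw [← e3, hH64] at this
      push_cast at this
      omega
    obtain ⟨e9, e10, eb, e32, ha1, e2'⟩ := bb_facts (N := N) (a := a) (by omega) hN
    have han : a ≤ n := by omega
    obtain ⟨Z, yh, hpat, hOK, hbx⟩ := hbox a hsa han
    have hfree : ∀ x ∈ L, v.2 - 16 * ρ ≤ x.2 → x.2 ≤ v.2 - 14 * ρ → ρ < 8 * (x.1 - v.1) :=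
      fun x hx k1 k2 => hI x hx k1 k2
    set c : Vtx := (v.1 + 4 * bb N a, v.2 - 15 * ρ) with hc
    have c1 : c.1 = v.1 + 4 * bb N a := by rw [hc]
    have c2 : c.2 = v.2 - 15 * ρ := by rw [hc]
    have hwd := wd2 (ρ := ρ) sdd hv1 hvm hvn hvy hρm ha64 hN hnA hρ1 hρ2 hfree hc
    refine dock_genG (a := a) (c := c) (Q := 4000 * (2 * N + 12)) (Z := Z) (yh := yh) hwd hr1 hr
      hOK hκ0 hκ (by positivity) hpat hbx (fun C hC => ?_)
      (fun F hF hc => hW a Z yh c F hsa han hpat hF hc) hH0 hH0S hconn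
    refine hook2 (ρ := (ρ : ℤ)) hwd hN hr hpat ?_ ?_ ?_ ?_ ?_ hk (by omega) ?_ hC
    · intro e he hne
      have k1 := Hk2_end (by omega) hN (by rw [c1]; omega) (by rw [c1]; omega) (by omega) he
        (Or.inl rfl)
      have k2 := Hk2_end (by omega) hN (by rw [c1]; omega) (by rw [c1]; omega) (by omega) he
        (Or.inr rfl)
      rw [tc_RE] at hne
      obtain ⟨x, y, b⟩ := e
      rw [e9, c1] at k1 k2
      rw [c1, c2] at hne
      rw [c2]
      cases b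
      · rw [mem_RE_false] at hne
        simp only [src_mk, tgt_false] at k1 k2 ⊢
        omega
      · rw [mem_RE_true] at hne
        simp only [src_mk, tgt_true] at k1 k2 ⊢
        omega
    · intro y hy hL
      have h1 : ((v.1 - c.1 + c.1, y + c.2) : Vtx) ∈ L := hL
      rw [sub_add_cancel] at h1
      exact hnA _ (by omega) h1
    · rw [c2]; omega
    · rw [c1]; omega
    · omega
    · have h1 : (2048 : ℤ) ≤ K := by
        have : 2048 ≤ K := by omega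
        exact_mod_cast this
      have h2 : (0:ℤ) ≤ bb N a := by omega
      have h3 : (2048 : ℤ) * bb N a ≤ K * bb N a := mul_le_mul_of_nonneg_right h1 h2
      omega


end Pool.Agent.V5helper99.OX
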