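import Pool.Agent.V5helper99.OX.Gen3
import Pool.Agent.V5helper99.OB.Core

/-!
# Windows for general good clusters, part 4: many windows
-/

set_option autoImplicit false
set_option maxHeartbeats 4000000

namespace Pool.Agent.V5helper99.OX

open H974 H12S Finset H984P H984N Pool.Agent.V5helper99.OB

theorem coreG {N r : ℕ} {p : ℝ} (hr1 : 8 ≤ r) (hr : 64 * r ≤ N) (hp : 0 < p) :
    ∃ c1 : ℝ, 0 < c1 ∧ c1 ≤ 1 ∧ ∀ (θ σ : ℝ), 0 < θ → 0 < σ → ∃ (s : ℝ) (n0 : ℕ), 0 < s ∧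
      ∀ n : ℕ, n0 ≤ n →
      ∀ (Gc : ℕ → Finset (ℤ × ℤ) → ℤ → Finset Vtx → Prop) (Wp : Set Vtx → Prop),
      (∀ a : ℕ, s * n ≤ a → a ≤ n → ∃ (Z : Finset (ℤ × ℤ)) (yh : ℤ), Pat N Z yh ∧
        OKG (Gc a Z yh) r a Z ∧ p ≤ PQ (1 / 2) (TP N a) (BevG (Gc a Z yh) N r a Z yh)) →
      (∀ (a : ℕ) (Z : Finset (ℤ × ℤ)) (yh : ℤ) (c v : Vtx) (F : Finset Edg), s * n ≤ a → a ≤ n →
        Pat N Z yh → F ⊆ RE 0 n 0 n → inR 0 n 0 n v →
        Conc (Gc a Z yh) N r a Z yh {x | Reach (↑F : Set Edg) v (x.1 + c.1, x.2 + c.2)} →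
        Wp {w | Reach (↑F : Set Edg) v w}) →
      ∀ (m ρ J : ℕ), σ * n ≤ ρ → 64 * 2 ^ J * ρ ≤ m → m ≤ n →
      ∀ v : Vtx, v ∈ Finset.Icc (0:ℤ) n ×ˢ Finset.Icc (0:ℤ) n → (n : ℤ) ≤ 2 * v.2 →
        PQ (1 / 2) (RE 0 n 0 n) (fun F => Lf v m (↑F : Set Edg) ∧
          (∀ j < J, ¬ Tch v m ⌊θ * n⌋ (v.2 - 17 * (2 ^ j * ρ : ℕ)) (v.2 - 13 * (2 ^ j * ρ : ℕ)) F) ∧
          ¬ Wp {w | Reach (↑F : Set Edg) v w}) ≤
        (1 - c1) ^ J * PQ (1 / 2) (RE 0 n 0 n) (fun F => Lf v m (↑F : Set Edg)) := by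
  classical
  obtain ⟨κ, hκ0, hκ⟩ := win_half
  obtain ⟨kk, hk⟩ := hh_long (64 * N + 2048)
  have ok : Ok (fun _ : Edg => (1/2 : ℝ)) := okq (by norm_num) (by norm_num)
  set cc : ℝ := p * (1/2) ^ (8 * kk) * κ ^ (4 * (2 * (32 * (4000 * (2 * N + 12))) + 1) ^ 2)
    with hcc
  have hcc0 : 0 < cc := by positivity
  refine ⟨min cc 1, lt_min hcc0 one_pos, min_le_right _ _, ?_⟩
  intro θ σ hθ hσ
  set s : ℝ := min θ σ / (128 * (2 * N + 12)) with hsd
  have hden : (0:ℝ) < 128 * (2 * N + 12) := by positivity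
  have hs : 0 < s := div_pos (lt_min hθ hσ) hden
  have hs1 : s * (128 * (2 * N + 12)) = min θ σ := by rw [hsd]; field_simp
  have hsθ : s * (128 * (2 * N + 12)) ≤ θ := by rw [hs1]; exact min_le_left _ _
  have hsσ : s * (128 * (2 * N + 12)) ≤ σ := by rw [hs1]; exact min_le_right _ _
  refine ⟨s, ⌈(64 : ℝ) / s⌉₊, hs, ?_⟩
  intro n hn Gc Wp hbox hWG m ρ J hσρ hJm hmn v hv hvy
  have h64 : (64 : ℝ) ≤ s * n := by
    have h1 : (64 : ℝ) / s ≤ n := (Nat.le_ceil _).trans (by exact_mod_cast hn)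
    rw [div_le_iff₀ hs] at h1
    linarith
  have hn' : (0:ℝ) < n := by
    rcases Nat.eq_zero_or_pos n with h | h
    · rw [h] at h64; norm_num at h64
    · exact_mod_cast h
  have hρ1 : 1 ≤ ρ := by
    have : (0:ℝ) < ρ := lt_of_lt_of_le (by positivity) hσρ
    exact_mod_cast this
  have hm1 : 1 ≤ m := by
    have : 1 ≤ 64 * 2 ^ J * ρ := Nat.one_le_iff_ne_zero.2 (by positivity)
    omega
  rw [Finset.mem_product, Finset.mem_Icc, Finset.mem_Icc] at hv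
  obtain ⟨⟨hv1, hv1n⟩, hv2, hvn⟩ := hv
  set S := RE 0 (n : ℤ) 0 n with hS
  set Aev : Finset Edg → Prop := fun F =>
    (∃ Y T, Strand (insert (v.1 - 1, v.2, true) (↑F : Set Edg)) v.1 v.2 (v.1 + m) Y T) ∧
    (∀ j < J, ¬ Tch v m ⌊θ * n⌋ (v.2 - 17 * (2 ^ j * ρ : ℕ)) (v.2 - 13 * (2 ^ j * ρ : ℕ)) F)
    with hAev
  have main : Pr (fun _ : Edg => (1/2 : ℝ)) S (fun F => Aev F ∧ (Xc v (↑F : Set Edg) ∧
      ¬ Wp {w | Reach (↑F : Set Edg) v w})) ≤
      (1 - min cc 1) ^ J * Pr (fun _ : Edg => (1/2 : ℝ)) S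
        (fun F => Aev F ∧ Xc v (↑F : Set Edg)) := by
    refine markov_ratio ok (K := Kx n m v) (fun F _ => Kx_sub F) Kx_stop ?_ ?_
    · rintro F F' hF hF' hK ⟨⟨Y, T, hst⟩, hnt⟩
      obtain ⟨h1, h2, h3⟩ := transfer hF hF' hK hst
      refine ⟨⟨Y, T, h1⟩, ?_⟩
      rintro j hj ⟨Y', T', hst', x, hx, hx1, hx2, hx3⟩
      refine hnt j hj ⟨Y, T, hst, x, ?_, hx1, hx2, hx3⟩
      have := strand_unique h1 hst'
      subst this
      rw [← h3]
      exact hx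
    · rintro F0 hF0 ⟨⟨Y, T, hst⟩, hnt⟩
      rw [Kx_of hst]
      set k := Exm (insert (v.1 - 1, v.2, true) (↑F0 : Set Edg)) (st0 v.1 v.2) T with hkd
      have e1 : S \ (k ∩ RE 0 (n:ℤ) 0 n) = S \ k := MK_sdiff (Finset.Subset.refl _) k
      have e2 : F0 ∩ (k ∩ RE 0 (n:ℤ) 0 n) = F0 ∩ k := MK_inter hF0 k
      rw [e1, e2]
      set H0 := F0 ∩ k with hH0
      have hvR : inR 0 n 0 n (v.1, v.2) := ⟨⟨hv1, hv1n⟩, hv2, hvn⟩
      obtain ⟨P, sdd, hcon⟩ := SD_of_strand (by exact_mod_cast hF0) hvR hst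
      set L := LV (insert (v.1 - 1, v.2, true) (↑F0 : Set Edg)) v.1 v.2 T with hL
      have hconn : ∀ x ∈ L, Reach (↑(H0 ∩ k) : Set Edg) v x := by
        intro x hx
        refine (hcon x hx).mono ?_
        rw [hH0, Finset.inter_assoc, Finset.inter_self, Finset.coe_inter]
      have hH0k : H0 ⊆ k := Finset.inter_subset_right
      have hH0S : H0 ⊆ S := Finset.inter_subset_left.trans hF0
      have hvm : v.1 + m ≤ n := by
        have h1 : (v.1 + (m:ℤ), Y) ∈ L := ⟨T, le_rfl, by rw [hst.tip]⟩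
        have h2 := reach_RE (n := n) (F := (↑F0 : Set Edg)) (by exact_mod_cast hF0) hvR
          ((hcon _ h1).mono Set.inter_subset_left)
        exact h2.1.2
      by_cases hZ : ∃ y, v.2 < y ∧ (v.1, y) ∈ L
      · obtain ⟨y, hy, hyL⟩ := hZ
        have hXf : ∀ G : Finset Edg, ¬ Xc v (↑(H0 ∪ G) : Set Edg) := by
          intro G hX
          have h1 : Reach (↑(H0 ∪ G) : Set Edg) v (v.1, y) := by
            refine (hconn _ hyL).mono ?_
            exact_mod_cast (Finset.inter_subset_left.trans Finset.subset_union_left)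
          have := (hX _ h1).2 rfl
          simp only at this
          omega
        rw [MK_false _ _ (fun G _ h => hXf G h.1), MK_false _ _ (fun G _ h => hXf G h), mul_zero]
      · push Not at hZ
        have hdock : ∀ j, j < J → DockG S k v (W00 v (2 ^ j * ρ)) H0 Wp cc := by
          intro j hj
          have h1 : 2 ^ (j + 1) * ρ ≤ 2 ^ J * ρ :=
            Nat.mul_le_mul_right _ (Nat.pow_le_pow_right (by norm_num) hj)
          have h2 : 2 ^ (j + 1) * ρ = 2 * (2 ^ j * ρ) := by ring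
          have h3 : 64 * 2 ^ J * ρ = 64 * (2 ^ J * ρ) := by ring
          have h4 : 128 * (2 ^ j * ρ) ≤ m := by omega
          have h4' : ((128 * (2 ^ j * ρ) : ℕ) : ℤ) ≤ m := by exact_mod_cast h4
          have h5 : ρ ≤ 2 ^ j * ρ := Nat.le_mul_of_pos_left _ (by positivity)
          have h6 : (ρ : ℝ) ≤ ((2 ^ j * ρ : ℕ) : ℝ) := by exact_mod_cast h5
          refine dockG (ρ := 2 ^ j * ρ) (K := 64 * N + 2048) (P := P) (L := L) sdd hv1 hvm hvn
            (by omega) h4 (fun y hy => hZ y hy) ?_ hr1 hr hκ0 hκ hbox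
            (fun a Z yh c F k1 k2 k3 k4 k5 => hWG a Z yh c v F k1 k2 k3 k4 hvR k5) hk le_rfl
            hsθ hsσ (hσρ.trans h6) h64 hH0k hH0S hconn
          intro x hx k1 k2 k3
          exact hnt j hj ⟨Y, T, hst, x, hx, k1, k2, k3⟩
        choose! Gd hGd1 hGd2 hGd3 using hdock
        have hiter := iter_win ok (S := S \ k) (X := fun G => Xc v (↑(H0 ∪ G) : Set Edg))
          (U := fun j => UU S k (W00 v (2 ^ j * ρ))) (Gd := Gd) (c := min cc 1)
          (min_le_right _ _) J (fun j _ => Finset.filter_subset _ _)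
          (fun i _ j _ hij => UU_disj hij) (fun j hj F _ => hGd1 j hj F) (fun j hj H hH => by
            refine le_trans ?_ (hGd2 j hj H hH)
            exact mul_le_mul_of_nonneg_right (min_le_left _ _) (Pr_nonneg ok _ _))
        refine le_trans (Pr_mono ok ?_) hiter
        rintro G hG ⟨hX, hW⟩
        exact ⟨hX, fun j hj hGj => hW (hGd3 j hj G hG hX hGj)⟩
  calc PQ (1 / 2) S (fun F => Lf v m (↑F : Set Edg) ∧
          (∀ j < J, ¬ Tch v m ⌊θ * n⌋ (v.2 - 17 * (2 ^ j * ρ : ℕ))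
            (v.2 - 13 * (2 ^ j * ρ : ℕ)) F) ∧
          ¬ Wp {w | Reach (↑F : Set Edg) v w})
      ≤ Pr (fun _ : Edg => (1/2 : ℝ)) S (fun F => Aev F ∧ (Xc v (↑F : Set Edg) ∧
          ¬ Wp {w | Reach (↑F : Set Edg) v w})) := by
        apply Pr_mono ok
        rintro F hF ⟨h1, h2, h3⟩
        exact ⟨⟨strand_of_Lf hm1 h1, h2⟩, h1.2, h3⟩
    _ ≤ _ := main
    _ ≤ (1 - min cc 1) ^ J * PQ (1 / 2) S (fun F => Lf v m (↑F : Set Edg)) := by
        apply mul_le_mul_of_nonneg_left _ (pow_nonneg (by have := min_le_right cc 1; linarith) _)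
        apply Pr_mono ok
        rintro F hF ⟨⟨⟨Y, T, hst⟩, _⟩, hX⟩
        refine ⟨⟨(v.1 + m, Y), le_rfl, ?_⟩, hX⟩
        have h1 := strand_reach hst (le_refl T)
        rw [hst.tip] at h1
        refine h1.mono ?_
        rintro e ⟨he, he1, he2⟩
        rcases he with he | he
        · exact absurd he he2
        · exact he


end Pool.Agent.V5helper99.OX
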