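import Pool.Agent.V5helper99.OX.Gen5
import Pool.Agent.V5helper99.OX.Box

/-!
# Many accessible vertices in all the large clusters
-/

set_option autoImplicit false
set_option maxHeartbeats 4000000

namespace Pool.Agent.V5helper99.OX

open H974 H12S Finset H984P H984N H342P Pool.Agent.V5helper99.OB

/-- The lattice edges whose ends are not in `D`. -/
def Av (D : Set Vtx) : Set Edg := {e | src e ∉ D ∧ tgt e ∉ D}

/-- Many vertices of `D` near a lattice path to the exterior of the box which avoids `D`. -/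
def WpX (n m : ℕ) (c : ℝ) (D : Set Vtx) : Prop :=
  ∃ V : Finset Vtx, V.Nonempty ∧ (∀ w ∈ V, w ∈ D) ∧
    c * ((n : ℝ) / m) ^ (4 / 3 : ℝ) * (PC m V : ℝ) ≤ (V.card : ℝ) ^ 2 ∧
    ∀ w ∈ V, ∃ x, sd x w ≤ 2 ∧ x ∉ D ∧ ∃ y, ¬ inR 0 n 0 n y ∧ Reach (Av D) x y

/-! ### Symmetries -/

theorem av_sym {g : LSym} {D D' : Set Vtx} (h : ∀ x, g.ψ x ∈ D' ↔ x ∈ D) {x y : Vtx}
    (hr : Reach (Av D') (g.ψ x) (g.ψ y)) : Reach (Av D) x y := by
  rw [← g.reach_iff (F := Av D)]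
  refine hr.mono ?_
  intro e he
  refine ⟨g.φ.symm e, ?_, Equiv.apply_symm_apply _ _⟩
  obtain ⟨h1, h2⟩ := he
  have h3 := g.compat (g.φ.symm e)
  rw [Equiv.apply_symm_apply] at h3
  rcases h3 with ⟨h4, h5⟩ | ⟨h4, h5⟩
  · rw [h4, h] at h1
    rw [h5, h] at h2
    exact ⟨h1, h2⟩
  · rw [h4, h] at h1
    rw [h5, h] at h2
    exact ⟨h2, h1⟩

theorem PC_map {m : ℕ} {V : Finset Vtx} (f : Vtx ↪ Vtx) (hf : ∀ u w, sd (f u) (f w) = sd u w) :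
    PC m (V.map f) = PC m V := by
  classical
  unfold PC
  have h : ((V.map f ×ˢ V.map f).filter (fun q => sd q.1 q.2 ≤ m)) =
      ((V ×ˢ V).filter (fun q => sd q.1 q.2 ≤ m)).map (f.prodMap f) := by
    ext q
    rw [Finset.mem_filter, Finset.mem_product, Finset.mem_map, Finset.mem_map, Finset.mem_map]
    constructor
    · rintro ⟨⟨⟨a', ha, h1⟩, b', hb, h2⟩, h⟩
      rw [← h1, ← h2, hf] at h
      refine ⟨(a', b'), Finset.mem_filter.2 ⟨Finset.mem_product.2 ⟨ha, hb⟩, h⟩, ?_⟩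
      exact Prod.ext h1 h2
    · rintro ⟨⟨a', b'⟩, h1, rfl⟩
      rw [Finset.mem_filter, Finset.mem_product] at h1
      refine ⟨⟨⟨a', h1.1.1, rfl⟩, b', h1.1.2, rfl⟩, ?_⟩
      show sd (f a') (f b') ≤ m
      rw [hf]
      exact h1.2
  rw [h, Finset.card_map]

theorem wpX_sym {n n' m : ℕ} {c : ℝ} {g : LSym} (hg : ∀ u v, sd (g.ψ u) (g.ψ v) = sd u v)
    (hb : ∀ x, inR 0 n 0 n (g.ψ.symm x) → inR 0 n' 0 n' x) (hn : n = n') {D D' : Set Vtx}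
    (h : ∀ x, g.ψ x ∈ D' ↔ x ∈ D) (hW : WpX n' m c D') : WpX n m c D := by
  classical
  subst hn
  obtain ⟨V, hne, hV, hE, hp⟩ := hW
  have hgs : ∀ u v, sd (g.ψ.symm u) (g.ψ.symm v) = sd u v := by
    intro u v
    rw [← hg, Equiv.apply_symm_apply, Equiv.apply_symm_apply]
  refine ⟨V.map g.ψ.symm.toEmbedding, hne.map, ?_, ?_, ?_⟩
  · intro w hw
    obtain ⟨u, hu, rfl⟩ := Finset.mem_map.1 hw
    rw [← h]
    simpa using hV u hu
  · rw [Finset.card_map, PC_map _ (fun u w => hgs u w)]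
    exact hE
  · intro w hw
    obtain ⟨u, hu, rfl⟩ := Finset.mem_map.1 hw
    obtain ⟨x, hx, hxD, y, hy, hr⟩ := hp u hu
    refine ⟨g.ψ.symm x, ?_, ?_, g.ψ.symm y, fun h2 => hy (hb y h2), ?_⟩
    · simp only [Equiv.coe_toEmbedding]
      rw [hgs]
      exact hx
    · rw [← h]
      simpa using hxD
    · apply av_sym h
      rw [Equiv.apply_symm_apply, Equiv.apply_symm_apply]
      exact hr

theorem inv_wpX (n m : ℕ) (c : ℝ) : Inv n (WpX n m c) := by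
  constructor
  · intro D D' h hW
    refine wpX_sym (g := rfy n) (fun u v => Pool.Agent.V5helper90.OB.iso_rfy n u v) ?_ rfl h hW
    intro x hx
    obtain ⟨x1, x2⟩ := x
    have h1 : (rfy (n:ℤ)).ψ.symm (x1, x2) = (x1, n - x2) := rfl
    rw [h1] at hx
    unfold inR at hx ⊢
    simp only at hx ⊢
    omega
  · intro D D' h hW
    refine wpX_sym (g := tps) (fun u v => Pool.Agent.V5helper90.OB.iso_tps u v) ?_ rfl h hW
    intro x hx
    obtain ⟨x1, x2⟩ := x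
    have h1 : (tps).ψ.symm (x1, x2) = (x2, x1) := rfl
    rw [h1] at hx
    unfold inR at hx ⊢
    simp only at hx ⊢
    omega

/-! ### From the window to the whole box -/

theorem kz_av {N r a : ℕ} {Z : Finset (ℤ × ℤ)} {yh : ℤ} {C : Finset Vtx} {D : Set Vtx}
    (hr1 : 8 ≤ r)
    (hcor : ∀ d ∈ D, (sd d (0, 0) ≤ (8 * r * a : ℕ) - 2 * a ∨ d ∈ rgn Z a 2 ∨
      (|d.1 + (N * a : ℕ)| ≤ (14 * a : ℕ) ∧ |d.2 - yh * a| ≤ (7 * a : ℕ)) ∨
      (d.1 ≤ -((N + 13) * a : ℕ) ∧ |d.2| ≤ ((2 * N + 10) * a : ℕ))) → d ∈ C) :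
    Kz r a Z C ⊆ Av D := by
  have key : ∀ p : Vtx, (sd p (0, 0) ≤ (4 * r * a : ℕ) ∨ p ∈ rgn Z a 1) ∧ p ∉ C → p ∉ D := by
    rintro p ⟨h1, h2⟩ hp
    apply h2
    apply hcor p hp
    rcases h1 with h1 | h1
    · left
      have e1 : ((4 * r * a : ℕ) : ℤ) = 4 * (r * a) := by push_cast; ring
      have e2 : ((8 * r * a : ℕ) : ℤ) = 8 * (r * a) := by push_cast; ring
      have e3 : (8 : ℤ) * a ≤ r * a := by
        have : 8 * a ≤ r * a := Nat.mul_le_mul_right _ hr1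
        have h2 : ((8 * a : ℕ) : ℤ) ≤ ((r * a : ℕ) : ℤ) := by exact_mod_cast this
        push_cast at h2
        linarith
      rw [e1] at h1
      rw [e2]
      omega
    · right; left
      exact rgn_nb h1 (s := 0) (by rw [sd_self]) (by push_cast; omega)
  rintro e ⟨h1, h2⟩
  exact ⟨key _ h1, key _ h2⟩

/-- the path to the left -/
theorem row_reach {D : Set Vtx} {y : Vtx} (h : ∀ j : ℕ, ((y.1 - j, y.2) : Vtx) ∉ D) (j : ℕ) :
    Reach (Av D) y (y.1 - j, y.2) := by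
  induction j with
  | zero => simpa using Reach.refl _ _
  | succ j ih =>
    refine ih.trans (Adj.reach ⟨(y.1 - ((j + 1 : ℕ) : ℤ), y.2, true), ⟨?_, ?_⟩, Or.inr ⟨?_, ?_⟩⟩)
    · rw [src_mk]; exact h (j + 1)
    · rw [tgt_true]
      have := h j
      have e : y.1 - ((j + 1 : ℕ) : ℤ) + 1 = y.1 - j := by push_cast; ring
      rw [e]; exact this
    · rw [src_mk]
    · rw [tgt_true]
      have e : y.1 - ((j + 1 : ℕ) : ℤ) + 1 = y.1 - j := by push_cast; ring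
      rw [e]

theorem wpX_of_conc {N r a n m : ℕ} {c0 E0 s : ℝ} {Z : Finset (ℤ × ℤ)} {yh : ℤ} {c : Vtx}
    {D : Set Vtx} (hr1 : 8 ≤ r) (hc0 : 0 < c0) (hE0 : 0 < E0) (hs : 0 < s) (hn : 1 ≤ n)
    (hm : 1 ≤ m) (hsa : s * n ≤ a) (hpat : Pat N Z yh)
    (h : Conc (GcX N r c0 E0 m a Z yh) N r a Z yh {x | (x.1 + c.1, x.2 + c.2) ∈ D}) :
    WpX n m (c0 ^ 2 / E0 * s ^ (4 / 3 : ℝ)) D := by
  classical
  obtain ⟨C, ⟨hCa, V, hVC, hne, hcard, hPC, hV⟩, hCD, hbox, hcor⟩ := h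
  set D' : Set Vtx := {x | (x.1 + c.1, x.2 + c.2) ∈ D} with hD'
  have hn' : (0:ℝ) < n := by exact_mod_cast hn
  have hm' : (0:ℝ) < m := by exact_mod_cast hm
  have ha' : (0:ℝ) < a := lt_of_lt_of_le (by positivity) hsa
  let f : Vtx ↪ Vtx := ⟨fun x => (x.1 + c.1, x.2 + c.2), fun x y hxy => by
    simp only [Prod.mk.injEq, add_left_inj] at hxy
    exact Prod.ext hxy.1 hxy.2⟩
  have hf : ∀ x, f x = (x.1 + c.1, x.2 + c.2) := fun _ => rfl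
  have hsd : ∀ u w, sd (f u) (f w) = sd u w := fun u w => sd_shift c u w
  refine ⟨V.map f, hne.map, ?_, ?_, ?_⟩
  · intro w hw
    obtain ⟨w', hw', rfl⟩ := Finset.mem_map.1 hw
    exact hCD _ (hVC hw')
  · rw [Finset.card_map, PC_map f hsd]
    have h1 : (c0 * (a : ℝ) ^ (4 / 3 : ℝ)) ^ 2 ≤ (V.card : ℝ) ^ 2 :=
      pow_le_pow_left₀ (by positivity) hcard 2
    refine le_trans ?_ h1
    have h2 : c0 ^ 2 / E0 * s ^ (4 / 3 : ℝ) * ((n : ℝ) / m) ^ (4 / 3 : ℝ) * (PC m V : ℝ) ≤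
        c0 ^ 2 / E0 * s ^ (4 / 3 : ℝ) * ((n : ℝ) / m) ^ (4 / 3 : ℝ) *
          (E0 * (a : ℝ) ^ (4 / 3 : ℝ) * (m : ℝ) ^ (4 / 3 : ℝ)) :=
      mul_le_mul_of_nonneg_left hPC (by positivity)
    refine h2.trans ?_
    have h3 : ((n : ℝ) / m) ^ (4 / 3 : ℝ) * (m : ℝ) ^ (4 / 3 : ℝ) = (n : ℝ) ^ (4 / 3 : ℝ) := by
      rw [← Real.mul_rpow (by positivity) hm'.le]
      congr 1
      field_simp
    have h4 : s ^ (4 / 3 : ℝ) * (n : ℝ) ^ (4 / 3 : ℝ) ≤ (a : ℝ) ^ (4 / 3 : ℝ) := by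
      rw [← Real.mul_rpow hs.le hn'.le]
      exact Real.rpow_le_rpow (by positivity) hsa (by norm_num)
    calc c0 ^ 2 / E0 * s ^ (4 / 3 : ℝ) * ((n : ℝ) / m) ^ (4 / 3 : ℝ) *
          (E0 * (a : ℝ) ^ (4 / 3 : ℝ) * (m : ℝ) ^ (4 / 3 : ℝ))
        = c0 ^ 2 * (E0 / E0) * (s ^ (4 / 3 : ℝ) * (((n : ℝ) / m) ^ (4 / 3 : ℝ) *
          (m : ℝ) ^ (4 / 3 : ℝ))) * (a : ℝ) ^ (4 / 3 : ℝ) := by ring
      _ = c0 ^ 2 * (s ^ (4 / 3 : ℝ) * (n : ℝ) ^ (4 / 3 : ℝ)) * (a : ℝ) ^ (4 / 3 : ℝ) := by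
          rw [h3, div_self hE0.ne', mul_one]
      _ ≤ c0 ^ 2 * (a : ℝ) ^ (4 / 3 : ℝ) * (a : ℝ) ^ (4 / 3 : ℝ) := by gcongr
      _ = (c0 * (a : ℝ) ^ (4 / 3 : ℝ)) ^ 2 := by ring
  · intro w hw
    obtain ⟨w', hw', rfl⟩ := Finset.mem_map.1 hw
    obtain ⟨-, x, hx, hxC, y, hy, hr⟩ := hV w' hw'
    have hkz := kz_av (N := N) (yh := yh) (Z := Z) hr1 hcor
    have hrow := row_free hpat hCa hbox hcor hy
    have hxD : x ∉ D' := by
      rcases Relation.ReflTransGen.cases_head hr with h1 | ⟨b, ⟨e, he, hs⟩, -⟩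
      · have := hrow 0
        rw [← h1] at this
        simpa using this
      · have h2 := hkz he
        rcases hs with ⟨h3, -⟩ | ⟨-, h3⟩
        · rw [← h3]; exact h2.1
        · rw [← h3]; exact h2.2
    obtain ⟨j, hj⟩ : ∃ j : ℕ, y.1 - j + c.1 < 0 := ⟨(y.1 + c.1 + 1).toNat, by omega⟩
    refine ⟨f x, by rw [hsd]; exact hx, hxD, f (y.1 - j, y.2), ?_, ?_⟩
    · rw [hf]
      unfold inR
      simp only
      omega
    · have h5 : Reach (Av D') x (y.1 - j, y.2) := (hr.mono hkz).trans (row_reach hrow j)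
      apply av_sym (g := tc c) (D' := D') (D := D)
      · intro z
        rw [tc_ψ, hD']
        show (z.1 - c.1 + c.1, z.2 - c.2 + c.2) ∈ D ↔ z ∈ D
        rw [sub_add_cancel, sub_add_cancel]
      · rw [tc_ψ, tc_ψ, hf, hf]
        simpa using h5

/-- **Many accessible vertices.** -/
theorem lowX {η : ℝ} (hη : 0 < η) (hA : Pool.Agent.Y989.FR.S_ACC) (hT : Pool.Agent.Y989.FR.S_THK)
    (hU : Pool.Agent.Y989.FR.S_U3) :
    ∃ (c : ℝ) (n0 : ℕ), 0 < c ∧ ∀ n : ℕ, n0 ≤ n → ∀ m : ℕ, 1 ≤ m →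
      Plain.prob n (fun F => ∃ v ∈ Plain.box n,
        (∃ a ∈ Plain.cluster F v, ∃ b ∈ Plain.cluster F v, η * n ≤ ((sd a b : ℤ) : ℝ)) ∧
          ¬ WpX n m c (Plain.cluster F v)) ≤ η := by
  obtain ⟨N, r, a0, c0, E0, p, hr1, hr, ha0, hc0, hE0, hp, hbox⟩ := boxX hA hT hU
  obtain ⟨s, n0, hs, hmain⟩ := asmG hr1 hr hp hη
  refine ⟨c0 ^ 2 / E0 * s ^ (4 / 3 : ℝ), max n0 (⌈(a0 : ℝ) / s⌉₊ + 1), by positivity,
    fun n hn m hm => ?_⟩
  rw [max_le_iff] at hn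
  have hn1 : 1 ≤ n := by omega
  have hsn : (a0 : ℝ) ≤ s * n := by
    have h1 : (a0 : ℝ) / s ≤ n := (Nat.le_ceil _).trans (by exact_mod_cast (by omega))
    rw [div_le_iff₀ hs] at h1
    linarith
  refine hmain n hn.1 (fun a Z yh => GcX N r c0 E0 m a Z yh) (WpX n m _) ?_ ?_ (inv_wpX n m _)
  · intro a ha _
    have ha0' : a0 ≤ a := by exact_mod_cast hsn.trans ha
    obtain ⟨Z, yh, h1, h2⟩ := hbox a ha0' m hm
    refine ⟨Z, yh, h1, ?_, h2⟩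
    rintro C ⟨h3, V, hVC, ⟨w, hw⟩, -, -, hV⟩
    exact ⟨h3, w, hVC hw, (hV w hw).1⟩
  · intro a Z yh c D ha han hpat _ hconc
    exact wpX_of_conc hr1 hc0 hE0 hs hn1 hm ha hpat hconc

end Pool.Agent.V5helper99.OX
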