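import Pool.Agent.V5helper99.OX.Acc

/-!
# Upper bound for the number of the squares with accessible vertices
-/

set_option autoImplicit false
set_option maxHeartbeats 4000000

namespace Pool.Agent.V5helper99.OX

open H974 H12S Finset H389NS H984P H984N H342P Pool.Agent.W424.OD

/-- three arms from the square with the corner `m q` -/
def E3 (m : ℕ) (q : Vtx) (k : ℤ) (F : Set Edg) : Prop :=
  k ≤ 1 ∨ A3v ((m : ℤ) * q.1, (m : ℤ) * q.2) (2 * m) (m * k.toNat) F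

/-- number of squares with three arms -/
noncomputable def NS (n m : ℕ) (κ : ℤ) (F : Set Edg) : ℝ :=
  ∑ q ∈ Finset.Icc (0:ℤ) (n / m : ℕ) ×ˢ Finset.Icc (0:ℤ) (n / m : ℕ),
    ind (E3 m q (min κ (bdist (n / m) q)) F)

theorem NS_nonneg (n m : ℕ) (κ : ℤ) (F : Set Edg) : 0 ≤ NS n m κ F :=
  Finset.sum_nonneg (fun _ _ => ind_nonneg _)

theorem sqr_box {n m : ℕ} (hm : 1 ≤ m) {w : Vtx} (hw : inR 0 n 0 n w) :
    sqr m w ∈ Finset.Icc (0:ℤ) (n / m : ℕ) ×ˢ Finset.Icc (0:ℤ) (n / m : ℕ) := by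
  unfold inR at hw
  unfold sqr
  rw [Finset.mem_product, Finset.mem_Icc, Finset.mem_Icc]
  push_cast
  have hm : (0:ℤ) < m := by exact_mod_cast hm
  exact ⟨⟨Int.ediv_nonneg hw.1.1 hm.le, Int.ediv_le_ediv hm hw.1.2⟩,
    Int.ediv_nonneg hw.2.1 hm.le, Int.ediv_le_ediv hm hw.2.2⟩

theorem ns_of {n m : ℕ} (hm : 1 ≤ m) {κ : ℤ} {F : Finset Plain.Edge} {v a b : Vtx}
    (ha : Reach (↑F : Set Edg) v a) (hb : Reach (↑F : Set Edg) v b)
    (hab : 2 * (m * κ) < sd a b) :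
    (((accessible n F v).image (sqr m)).card : ℝ) ≤ NS n m κ (↑F : Set Edg) := by
  classical
  have hm0 : (0 : ℤ) < m := by exact_mod_cast hm
  have hm1 : (1 : ℤ) ≤ m := by exact_mod_cast hm
  have hacc : ∀ w ∈ accessible n F v, inR 0 n 0 n w ∧ Accessible n F v w := by
    intro w hw
    unfold accessible at hw
    rw [Finset.mem_filter, mem_box] at hw
    exact hw
  have hsub : (accessible n F v).image (sqr m) ⊆
      Finset.Icc (0:ℤ) (n / m : ℕ) ×ˢ Finset.Icc (0:ℤ) (n / m : ℕ) := by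
    intro q hq
    obtain ⟨w, hw, rfl⟩ := Finset.mem_image.1 hq
    exact sqr_box hm (hacc w hw).1
  have hone : ∀ q ∈ (accessible n F v).image (sqr m),
      (1:ℝ) ≤ ind (E3 m q (min κ (bdist (n / m) q)) (↑F : Set Edg)) := by
    intro q hq
    obtain ⟨w, hw, rfl⟩ := Finset.mem_image.1 hq
    obtain ⟨hwb, hwc, e, p, q', he, hp, hq', hpq⟩ := hacc w hw
    rw [ind_of]
    set q : Vtx := sqr m w with hqd
    set k : ℤ := min κ (bdist (n / m) q) with hk
    by_cases hk1 : k ≤ 1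
    · exact Or.inl hk1
    right
    have hkκ : k ≤ κ := min_le_left _ _
    have hkb : k ≤ bdist (n / m) q := min_le_right _ _
    have hkn : ((k.toNat : ℕ) : ℤ) = k := Int.toNat_of_nonneg (by omega)
    have hk2 : 2 ≤ k.toNat := by omega
    have hQ : (m : ℤ) * ((n / m : ℕ) : ℤ) ≤ n := by
      have := Nat.mul_div_le n m
      exact_mod_cast this
    have hq1 : q.1 = w.1 / (m : ℤ) := rfl
    have hq2 : q.2 = w.2 / (m : ℤ) := rfl
    have a1 := Int.ediv_mul_le w.1 hm0.ne'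
    have a2 := Int.lt_ediv_add_one_mul_self w.1 hm0
    have a3 := Int.ediv_mul_le w.2 hm0.ne'
    have a4 := Int.lt_ediv_add_one_mul_self w.2 hm0
    rw [← hq1] at a1 a2
    rw [← hq2] at a3 a4
    have a1' : (m : ℤ) * q.1 ≤ w.1 := by linarith
    have a2' : w.1 < (m : ℤ) * q.1 + m := by linarith
    have a3' : (m : ℤ) * q.2 ≤ w.2 := by linarith
    have a4' : w.2 < (m : ℤ) * q.2 + m := by linarith
    have hmk : (m : ℤ) * k ≤ m * κ := mul_le_mul_of_nonneg_left hkκ hm0.le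
    unfold bdist at hkb
    rw [le_min_iff, le_min_iff, le_min_iff] at hkb
    obtain ⟨⟨b1, b2⟩, b3, b4⟩ := hkb
    have b1' : (m : ℤ) * k ≤ m * q.1 := mul_le_mul_of_nonneg_left b1 hm0.le
    have b2' : (m : ℤ) * k ≤ m * ((n / m : ℕ) - q.1) := mul_le_mul_of_nonneg_left b2 hm0.le
    have b3' : (m : ℤ) * k ≤ m * q.2 := mul_le_mul_of_nonneg_left b3 hm0.le
    have b4' : (m : ℤ) * k ≤ m * ((n / m : ℕ) - q.2) := mul_le_mul_of_nonneg_left b4 hm0.le
    have b2'' : (m : ℤ) * k + m * q.1 ≤ n := by linarith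
    have b4'' : (m : ℤ) * k + m * q.2 ≤ n := by linarith
    have hpw : sd p w ≤ 1 := by
      have h1 : Adj (Set.univ : Set Edg) w p := by
        refine ⟨e, trivial, ?_⟩
        rw [Plain.fst_eq, Plain.snd_eq] at he
        exact he
      have h2 := V5helper72.OB.adj_sd h1
      rw [V5helper99.OB.sd_comm]
      exact h2
    rw [V5helper99.OB.sd_le_iff, abs_le, abs_le] at hpw
    have hcast : (((m * k.toNat : ℕ)) : ℤ) = m * k := by push_cast; rw [hkn]
    obtain ⟨x', hx', hxf⟩ : ∃ x', Reach (↑F : Set Edg) v x' ∧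
        ¬ BX ((m : ℤ) * q.1, (m : ℤ) * q.2) (m * k.toNat) x' := by
      by_contra hcon
      push Not at hcon
      have h1 := hcon a ha
      have h2 := hcon b hb
      unfold BX inR at h1 h2
      rw [hcast] at h1 h2
      have h3 : sd a b ≤ 2 * (m * k) := by
        rw [V5helper99.OB.sd_le_iff, abs_le, abs_le]
        simp only at h1 h2
        omega
      omega
    refine A3v_of (v := v) (x := w) (x' := x') (w := p) (w' := q') ?_ ?_
      ((Plain.mem_cluster _ _ _).1 hwc) hxf hx' ?_ ?_ (avoid_reach hpq)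
    · rw [mul_comm 2 m]
      exact Nat.mul_le_mul_left _ hk2
    · unfold BX inR
      push_cast
      omega
    · unfold BX inR
      push_cast
      omega
    · intro hqb
      apply hq'
      rw [mem_box]
      unfold BX inR at hqb
      rw [hcast] at hqb
      simp only at hqb
      unfold inR
      omega
  calc (((accessible n F v).image (sqr m)).card : ℝ)
      = ∑ q ∈ (accessible n F v).image (sqr m), (1:ℝ) := by simp
    _ ≤ ∑ q ∈ (accessible n F v).image (sqr m),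
          ind (E3 m q (min κ (bdist (n / m) q)) (↑F : Set Edg)) := Finset.sum_le_sum hone
    _ ≤ NS n m κ (↑F : Set Edg) :=
        Finset.sum_le_sum_of_subset_of_nonneg hsub (fun _ _ _ => ind_nonneg _)

/-- the probability for one square -/
theorem e3_le {C : ℝ} (hC : 0 < C) (hU : ∀ (c : ℤ × ℤ) (d k : ℕ), 1 ≤ d → d ≤ k →
    ∀ S : Finset Edg, blk c k ⊆ S →
      PQ (1/2) S (fun F => A3v c d k ↑F) ≤ C * ((d:ℝ) / k) ^ (2/3 : ℝ)) {n m : ℕ} (hm : 1 ≤ m)
    (q : Vtx) (k : ℤ) (hk : k ≤ bdist (n / m) q) :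
    Pr (fun _ => (1/2:ℝ)) (RE 0 n 0 n) (fun F => E3 m q k (↑F : Set Edg)) ≤
      ph (2 * C + 1) (2 / 3) k := by
  have hok : Ok (fun _ : Edg => (1/2:ℝ)) := fun _ => ⟨by norm_num, by norm_num⟩
  unfold ph
  split_ifs with h
  · exact Pr_le_one hok _ _
  · by_cases h1 : k = 1
    · subst h1
      simp only [Int.cast_one, Real.one_rpow, mul_one]
      exact (Pr_le_one hok _ _).trans (by linarith)
    · have hk2 : 2 ≤ k := by omega
      have hkn : ((k.toNat : ℕ) : ℤ) = k := Int.toNat_of_nonneg (by omega)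
      have hk2' : 2 ≤ k.toNat := by omega
      have hm0 : (0 : ℤ) < m := by exact_mod_cast hm
      have hmR : (0 : ℝ) < m := by exact_mod_cast hm
      have hkR : (0 : ℝ) < k := by exact_mod_cast (by omega : 0 < k)
      have hcast : (((m * k.toNat : ℕ)) : ℤ) = m * k := by push_cast; rw [hkn]
      have hQ : (m : ℤ) * ((n / m : ℕ) : ℤ) ≤ n := by
        have := Nat.mul_div_le n m
        exact_mod_cast this
      have hkb := hk
      unfold bdist at hkb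
      rw [le_min_iff, le_min_iff, le_min_iff] at hkb
      obtain ⟨⟨b1, b2⟩, b3, b4⟩ := hkb
      have b1' : (m : ℤ) * k ≤ m * q.1 := mul_le_mul_of_nonneg_left b1 hm0.le
      have b2' : (m : ℤ) * k ≤ m * ((n / m : ℕ) - q.1) := mul_le_mul_of_nonneg_left b2 hm0.le
      have b3' : (m : ℤ) * k ≤ m * q.2 := mul_le_mul_of_nonneg_left b3 hm0.le
      have b4' : (m : ℤ) * k ≤ m * ((n / m : ℕ) - q.2) := mul_le_mul_of_nonneg_left b4 hm0.le
      have hsub : blk ((m : ℤ) * q.1, (m : ℤ) * q.2) (m * k.toNat) ⊆ RE 0 n 0 n := by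
        apply Pool.Agent.W424.OD.blk_sub
        rw [hcast]
        unfold bdist
        rw [le_min_iff, le_min_iff, le_min_iff]
        refine ⟨⟨b1', by linarith⟩, b3', by linarith⟩
      have h2 := hU ((m : ℤ) * q.1, (m : ℤ) * q.2) (2 * m) (m * k.toNat) (by omega)
        (by rw [mul_comm 2 m]; exact Nat.mul_le_mul_left _ hk2') (RE 0 n 0 n) hsub
      have h3 : Pr (fun _ => (1/2:ℝ)) (RE 0 n 0 n) (fun F => E3 m q k (↑F : Set Edg)) ≤
          PQ (1/2) (RE 0 n 0 n)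
            (fun F => A3v ((m : ℤ) * q.1, (m : ℤ) * q.2) (2 * m) (m * k.toNat) (↑F : Set Edg)) := by
        apply Pr_mono hok
        intro F _ hF
        rcases hF with hF | hF
        · omega
        · exact hF
      refine h3.trans (h2.trans ?_)
      have e1 : (((2 * m : ℕ) : ℝ) / ((m * k.toNat : ℕ) : ℝ)) = 2 / k := by
        have : ((k.toNat : ℕ) : ℝ) = (k : ℝ) := by exact_mod_cast hkn
        push_cast
        rw [this]
        field_simp
      rw [e1, Real.div_rpow (by norm_num) hkR.le, Real.rpow_neg hkR.le]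
      have h4 : (2:ℝ) ^ (2 / 3 : ℝ) ≤ 2 := by
        calc (2:ℝ) ^ (2 / 3 : ℝ) ≤ (2:ℝ) ^ (1 : ℝ) :=
              Real.rpow_le_rpow_of_exponent_le (by norm_num) (by norm_num)
          _ = 2 := Real.rpow_one _
      have h5 : 0 < ((k:ℝ) ^ (2 / 3 : ℝ))⁻¹ := by positivity
      calc C * ((2:ℝ) ^ (2 / 3 : ℝ) / (k:ℝ) ^ (2 / 3 : ℝ))
          = C * (2:ℝ) ^ (2 / 3 : ℝ) * ((k:ℝ) ^ (2 / 3 : ℝ))⁻¹ := by ring
        _ ≤ (2 * C + 1) * ((k:ℝ) ^ (2 / 3 : ℝ))⁻¹ := by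
            apply mul_le_mul_of_nonneg_right _ h5.le
            nlinarith

theorem ex_NS_le {C : ℝ} (hC : 0 < C) (hU : ∀ (c : ℤ × ℤ) (d k : ℕ), 1 ≤ d → d ≤ k →
    ∀ S : Finset Edg, blk c k ⊆ S →
      PQ (1/2) S (fun F => A3v c d k ↑F) ≤ C * ((d:ℝ) / k) ^ (2/3 : ℝ)) {n m : ℕ} (hm : 1 ≤ m)
    (κ : ℤ) :
    Ex (fun _ => (1/2:ℝ)) (RE 0 n 0 n) (fun F => NS n m κ (↑F)) ≤
      ((n / m : ℕ) + 1) ^ 2 * ph (2 * C + 1) (2 / 3) κ + 4 * ((n / m : ℕ) + 1) *
        ∑ x ∈ Finset.Icc (0:ℤ) (n / m : ℕ), ph (2 * C + 1) (2 / 3) x := by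
  have hC' : 0 ≤ 2 * C + 1 := by linarith
  generalize hQ : n / m = Q
  have h1 : Ex (fun _ => (1/2:ℝ)) (RE 0 n 0 n) (fun F => NS n m κ (↑F)) ≤
      ∑ w ∈ Finset.Icc (0:ℤ) Q ×ˢ Finset.Icc (0:ℤ) Q, (ph (2 * C + 1) (2 / 3) κ +
        (ph (2 * C + 1) (2 / 3) w.1 + ph (2 * C + 1) (2 / 3) (Q - w.1) +
        (ph (2 * C + 1) (2 / 3) w.2 + ph (2 * C + 1) (2 / 3) (Q - w.2)))) := by
    unfold NS
    rw [hQ, Ex_sum]
    apply Finset.sum_le_sum
    intro w _
    refine le_trans ?_ (ph_min (s := 2 / 3) hC' Q κ w)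
    exact e3_le hC hU hm w _ (by rw [hQ]; exact min_le_right _ _)
  refine h1.trans (le_of_eq ?_)
  rw [Finset.sum_product]
  have hc : (Finset.Icc (0:ℤ) Q).card = Q + 1 := by
    rw [Int.card_Icc]; omega
  simp_rw [Finset.sum_add_distrib, Finset.sum_const, hc, sum_refl Q (ph (2 * C + 1) (2 / 3))]
  simp_rw [nsmul_eq_mul]
  have hr : ∑ x ∈ Finset.Icc (0:ℤ) Q, ((Q + 1 : ℕ) : ℝ) * ph (2 * C + 1) (2 / 3) (Q - x) =
      ((Q + 1 : ℕ) : ℝ) * ∑ x ∈ Finset.Icc (0:ℤ) Q, ph (2 * C + 1) (2 / 3) x := by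
    rw [← Finset.mul_sum, sum_refl Q (ph (2 * C + 1) (2 / 3))]
  have hr2 : ∑ x ∈ Finset.Icc (0:ℤ) Q, ((Q + 1 : ℕ) : ℝ) * ph (2 * C + 1) (2 / 3) x =
      ((Q + 1 : ℕ) : ℝ) * ∑ x ∈ Finset.Icc (0:ℤ) Q, ph (2 * C + 1) (2 / 3) x := by
    rw [← Finset.mul_sum]
  simp only [hr, hr2]
  push_cast
  ring

theorem sq_card_le {n m : ℕ} (hm : 1 ≤ m) {F : Finset Plain.Edge} {v : Vtx} :
    (((accessible n F v).image (sqr m)).card : ℝ) ≤ ((n / m : ℕ) + 1) ^ 2 := by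
  classical
  have hsub : (accessible n F v).image (sqr m) ⊆
      Finset.Icc (0:ℤ) (n / m : ℕ) ×ˢ Finset.Icc (0:ℤ) (n / m : ℕ) := by
    intro q hq
    obtain ⟨w, hw, rfl⟩ := Finset.mem_image.1 hq
    unfold accessible at hw
    rw [Finset.mem_filter, mem_box] at hw
    exact sqr_box hm hw.1
  have h1 := Finset.card_le_card hsub
  rw [Finset.card_product, Int.card_Icc] at h1
  have h2 : ∀ Q : ℕ, ((Q : ℤ) + 1 - 0).toNat = Q + 1 := by intro Q; omega
  rw [h2] at h1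
  have h3 : (((accessible n F v).image (sqr m)).card : ℝ) ≤ (((n / m + 1) * (n / m + 1) : ℕ) : ℝ) := by
    exact_mod_cast h1
  refine h3.trans (le_of_eq ?_)
  push_cast
  ring

/-- **Upper bound for the number of the squares.** -/
theorem upX (hU : U3) {δ η : ℝ} (hδ : 0 < δ) (hη : 0 < η) :
    ∃ K : ℝ, 0 < K ∧ ∀ n m : ℕ, 1 ≤ m → m ≤ n →
      Plain.prob n (fun F => ∃ v ∈ Plain.box n,
        (∃ a ∈ Plain.cluster F v, ∃ b ∈ Plain.cluster F v, η * n ≤ ((sd a b : ℤ) : ℝ)) ∧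
          ¬ (((accessible n F v).image (sqr m)).card : ℝ) ≤ K * ((n : ℝ) / m) ^ (4 / 3 : ℝ)) ≤ δ := by
  classical
  have hok : Ok (fun _ : Edg => (1/2:ℝ)) := fun _ => ⟨by norm_num, by norm_num⟩
  obtain ⟨C, hC, hU⟩ := hU
  set C' : ℝ := 2 * C + 1 with hC'
  have hC'0 : 0 < C' := by positivity
  set A : ℝ := 4 * C' * (8 / η) ^ (2 / 3 : ℝ) + 8 * (1 + 3 * C') with hA
  have hA0 : 0 < A := by positivity
  refine ⟨A / δ + 4 * (4 / η) ^ (2 / 3 : ℝ), by positivity, ?_⟩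
  intro n m hm hmn
  rw [Plain.prob_eq]
  have hmR : (0 : ℝ) < m := by exact_mod_cast hm
  have hnR : (0 : ℝ) < n := by exact_mod_cast (by omega : 0 < n)
  set x : ℝ := (n : ℝ) / m with hx
  have hx1 : 1 ≤ x := by
    rw [hx, le_div_iff₀ hmR, one_mul]
    exact_mod_cast hmn
  have hx0 : 0 < x := by linarith
  have hQx : ((n / m : ℕ) : ℝ) ≤ x := Nat.cast_div_le
  have hQ1 : ((n / m : ℕ) : ℝ) + 1 ≤ 2 * x := by linarith
  have hQ0 : (0:ℝ) ≤ ((n / m : ℕ) : ℝ) := Nat.cast_nonneg _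
  have hpw : x ^ 2 = x ^ (4 / 3 : ℝ) * x ^ (2 / 3 : ℝ) := by
    rw [← Real.rpow_add hx0, ← Real.rpow_natCast]; norm_num
  have hx43 : 0 < x ^ (4 / 3 : ℝ) := by positivity
  set K : ℝ := A / δ + 4 * (4 / η) ^ (2 / 3 : ℝ) with hK
  have hK0 : 0 < K := by positivity
  set κ : ℕ := ⌊η * x / 4⌋₊ with hκ
  by_cases hκ0 : κ = 0
  · -- few squares
    have h1 : η * x / 4 < 1 := by
      rw [hκ] at hκ0
      exact Nat.floor_eq_zero.1 hκ0
    have h2 : x ≤ 4 / η := by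
      rw [le_div_iff₀ hη]; linarith
    have h3 : ((n / m : ℕ) + 1 : ℝ) ^ 2 ≤ K * x ^ (4 / 3 : ℝ) := by
      calc ((n / m : ℕ) + 1 : ℝ) ^ 2 ≤ (2 * x) ^ 2 := pow_le_pow_left₀ (by positivity) hQ1 2
        _ = 4 * (x ^ (4 / 3 : ℝ) * x ^ (2 / 3 : ℝ)) := by rw [← hpw]; ring
        _ ≤ 4 * (x ^ (4 / 3 : ℝ) * (4 / η) ^ (2 / 3 : ℝ)) := by
            have := Real.rpow_le_rpow hx0.le h2 (show (0:ℝ) ≤ 2 / 3 by norm_num)
            gcongr
        _ = (4 * (4 / η) ^ (2 / 3 : ℝ)) * x ^ (4 / 3 : ℝ) := by ring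
        _ ≤ K * x ^ (4 / 3 : ℝ) := by
            apply mul_le_mul_of_nonneg_right _ hx43.le
            rw [hK]
            have : 0 < A / δ := by positivity
            linarith
    refine le_trans (Pr_mono hok (B := fun _ => ¬ True) ?_) ?_
    · rintro F _ ⟨v, -, -, h4⟩
      exact absurd ((sq_card_le hm).trans h3) h4
    · rw [Pr_not, Pr_true _ (fun _ _ => trivial)]
      linarith
  · have hκ1 : 1 ≤ κ := Nat.one_le_iff_ne_zero.2 hκ0
    have hκx : (κ : ℝ) ≤ η * x / 4 := Nat.floor_le (by positivity)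
    have hκx2 : η * x / 8 ≤ κ := by
      have h1 : η * x / 4 < κ + 1 := Nat.lt_floor_add_one _
      have h2 : (1:ℝ) ≤ κ := by exact_mod_cast hκ1
      linarith
    have hκR : (0:ℝ) < κ := by exact_mod_cast hκ1
    set t : ℝ := K * x ^ (4 / 3 : ℝ) with ht
    have ht0 : 0 < t := by positivity
    have h1 : Pr (fun _ => (1/2:ℝ)) (RE 0 n 0 n) (fun F => ∃ v ∈ Plain.box n,
        (∃ a ∈ Plain.cluster F v, ∃ b ∈ Plain.cluster F v, η * n ≤ ((sd a b : ℤ) : ℝ)) ∧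
          ¬ (((accessible n F v).image (sqr m)).card : ℝ) ≤ t) ≤
        Pr (fun _ => (1/2:ℝ)) (RE 0 n 0 n) (fun F => t ≤ NS n m κ (↑F)) := by
      apply Pr_mono hok
      rintro F _ ⟨v, -, ⟨a, ha, b, hb, hab⟩, h4⟩
      have h5 : 2 * ((m : ℤ) * (κ : ℤ)) < sd a b := by
        have h6 : (2 * ((m : ℝ) * κ)) < ((sd a b : ℤ) : ℝ) := by
          have h7 : (m : ℝ) * κ ≤ m * (η * x / 4) := mul_le_mul_of_nonneg_left hκx hmR.le
          have h8 : (m : ℝ) * (η * x / 4) = η * n / 4 := by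
            rw [hx]; field_simp
          have h9 : 0 < η * n := by positivity
          linarith
        exact_mod_cast h6
      have h6 := ns_of (n := n) hm ((Plain.mem_cluster _ _ _).1 ha)
        ((Plain.mem_cluster _ _ _).1 hb) h5
      exact (not_le.1 h4).le.trans h6
    have h3 := markov (S := RE 0 n 0 n) (X := fun F => NS n m κ (↑F))
      (fun F => NS_nonneg n m κ (↑F)) ht0
    have h4 := ex_NS_le hC hU hm (n := n) κ
    have h5 := sum_ph_le hC'0.le (show (0:ℝ) ≤ 2 / 3 by norm_num) (by norm_num) (n / m)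
    have h6 : ph C' (2 / 3) κ ≤ C' * ((8 / η) ^ (2 / 3 : ℝ) * x ^ (-(2 / 3) : ℝ)) := by
      unfold ph
      rw [if_neg (by omega)]
      have h7 : (((κ : ℤ)) : ℝ) ^ (-(2 / 3) : ℝ) ≤ (η * x / 8) ^ (-(2 / 3) : ℝ) := by
        apply Real.rpow_le_rpow_of_nonpos (by positivity) (by exact_mod_cast hκx2) (by norm_num)
      have h8 : (η * x / 8) ^ (-(2 / 3) : ℝ) = (8 / η) ^ (2 / 3 : ℝ) * x ^ (-(2 / 3) : ℝ) := by
        have : η * x / 8 = (8 / η)⁻¹ * x := by rw [inv_div]; ring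
        rw [this, Real.mul_rpow (by positivity) hx0.le, Real.inv_rpow (by positivity),
          Real.rpow_neg (by positivity : (0:ℝ) ≤ 8 / η), inv_inv]
      rw [← h8]
      gcongr
    have h9 : x ^ 2 * x ^ (-(2 / 3) : ℝ) = x ^ (4 / 3 : ℝ) := by
      rw [← Real.rpow_natCast, ← Real.rpow_add hx0]
      norm_num
    have h10 : x * x ^ (1 - 2 / 3 : ℝ) = x ^ (4 / 3 : ℝ) := by
      rw [show (4 / 3 : ℝ) = 1 + (1 - 2 / 3) by norm_num, Real.rpow_add hx0, Real.rpow_one]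
    have h11 : (1:ℝ) ≤ x ^ (1 - 2 / 3 : ℝ) := Real.one_le_rpow hx1 (by norm_num)
    have h12 : Ex (fun _ => (1/2:ℝ)) (RE 0 n 0 n) (fun F => NS n m κ (↑F)) ≤
        A * x ^ (4 / 3 : ℝ) := by
      refine h4.trans ?_
      have h13 : (((n / m : ℕ) : ℝ) + 1) ^ 2 * ph C' (2 / 3) κ ≤
          (2 * x) ^ 2 * (C' * ((8 / η) ^ (2 / 3 : ℝ) * x ^ (-(2 / 3) : ℝ))) :=
        mul_le_mul (pow_le_pow_left₀ (by positivity) hQ1 2) h6 (ph_nonneg hC'0.le _)
          (by positivity)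
      have h16 : ∑ y ∈ Finset.Icc (0:ℤ) (n / m : ℕ), ph C' (2 / 3) y ≤
          (1 + 3 * C') * x ^ (1 - 2 / 3 : ℝ) := by
        refine h5.trans ?_
        have h17 : ((n / m : ℕ) : ℝ) ^ (1 - 2 / 3 : ℝ) ≤ x ^ (1 - 2 / 3 : ℝ) :=
          Real.rpow_le_rpow hQ0 hQx (by norm_num)
        have h18 : ((n / m : ℕ) : ℝ) ^ (1 - 2 / 3 : ℝ) / (1 - 2 / 3) ≤
            3 * x ^ (1 - 2 / 3 : ℝ) := by
          rw [div_le_iff₀ (by norm_num)]
          linarith
        have h19 := mul_le_mul_of_nonneg_left h18 hC'0.le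
        linarith
      have h14 : 4 * (((n / m : ℕ) : ℝ) + 1) *
          ∑ y ∈ Finset.Icc (0:ℤ) (n / m : ℕ), ph C' (2 / 3) y ≤
          (8 * x) * ((1 + 3 * C') * x ^ (1 - 2 / 3 : ℝ)) := by
        apply mul_le_mul (by linarith) h16 (Finset.sum_nonneg (fun y _ => ph_nonneg hC'0.le y))
          (by positivity)
      have h15 : (2 * x) ^ 2 * (C' * ((8 / η) ^ (2 / 3 : ℝ) * x ^ (-(2 / 3) : ℝ))) =
          4 * C' * (8 / η) ^ (2 / 3 : ℝ) * x ^ (4 / 3 : ℝ) := by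
        rw [← h9]; ring
      have h20 : (8 * x) * ((1 + 3 * C') * x ^ (1 - 2 / 3 : ℝ)) =
          8 * (1 + 3 * C') * x ^ (4 / 3 : ℝ) := by
        rw [← h10]; ring
      rw [h15] at h13
      rw [h20] at h14
      rw [hA]
      linarith
    refine h1.trans (h3.trans ?_)
    rw [div_le_iff₀ ht0]
    refine h12.trans ?_
    have h18 : A ≤ δ * K := by
      have : δ * (A / δ) = A := by field_simp
      rw [hK, mul_add, this]
      have : 0 ≤ δ * (4 * (4 / η) ^ (2 / 3 : ℝ)) := by positivity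
      linarith
    rw [ht, ← mul_assoc]
    exact mul_le_mul_of_nonneg_right h18 hx43.le

end Pool.Agent.V5helper99.OX
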